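import Pool.Agent.W788.BK.Prob

/-! The numerical conditions in dimension two. -/

set_option autoImplicit false

open Filter

namespace Pool.Agent.TH311.AN2.Num

open Pool.Agent.W788.BK.Num

/-- the numerical conditions -/
structure OK2 (d : ℕ) (b c A1 CQ y : ℝ) : Prop where
  y1 : 1 ≤ y
  n1 : 6 * Real.exp (-(79 / 40) * y) ≤ 1
  n3 : (8 * d + 5) * Real.exp (87 / 40 * y) ≤ Real.exp (6 * y)
  n4 : 4 * Real.exp (79 / 20 * y) ≤ Real.exp (6 * y)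
  n5 : 2 * Real.exp (19 / 16 * y) ≤ Real.exp (6 * y)
  n6 : b * A1 * y ^ 2 * Real.exp (-1 * y) ≤ Real.exp (-(1 / 5) * y)
  n7 : b ^ 2 * A1 * y ^ 2 * Real.exp (-(1 / 40) * y) ≤ 1
  n8 : 16 * b ^ 3 * A1 ^ 2 * y ^ 4 * Real.exp (-(17 / 40) * y) ≤ 1
  n9 : 96 * b ^ 3 * CQ * A1 * y ^ 4 * Real.exp (-(1 / 40) * y) ≤ 1
  n10 : 8 * b ^ 2 * Real.exp (-(1 / 40) * y) ≤ 1
  n11 : 48 * b ^ 2 * CQ * y ^ 2 * Real.exp (-(33 / 80) * y) ≤ Real.exp (-(3 / 10) * y)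
  n12 : 4 * b ^ 2 * A1 ^ 2 * y ^ 4 * Real.exp (-(6 / 5) * y) ≤ Real.exp (-(3 / 10) * y)
  n13 : 4 * Real.exp (-(3 / 20) * y) ≤ 1
  n14 : 192 * A1 * c ^ 2 * y ^ 2 * Real.exp (-(1 / 200) * y) ≤ 1
  n15 : 5 * Real.exp (6 * y) ≤ Real.exp (7 * y)
  n16 : (12 * d + 12) * (Real.exp (y / 100) + y + 1) ≤ Real.exp (1 / 50 * y)
  n17 : (12 * d + 12) * (Real.exp (y / 100) + y + 1) ≤ 1 / (4 * b ^ 2) * Real.exp (1 / 40 * y)
  n18 : (12 * d + 12) * (Real.exp (y / 100) + y + 1) ≤ 1 / 4 * Real.exp (3 / 20 * y)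

theorem ok2 (d : ℕ) (b c A1 CQ : ℝ) (hb : 0 < b) : ∀ᶠ y : ℝ in atTop, OK2 d b c A1 CQ y := by
  filter_upwards [eventually_ge_atTop 1, ev2 6 (-(79 / 40)) 0 0 (by norm_num),
    ev2 (8 * d + 5) (87 / 40) 6 0 (by norm_num), ev2 4 (79 / 20) 6 0 (by norm_num),
    ev2 2 (19 / 16) 6 0 (by norm_num), ev2 (b * A1) (-1) (-(1 / 5)) 2 (by norm_num),
    ev2 (b ^ 2 * A1) (-(1 / 40)) 0 2 (by norm_num),
    ev2 (16 * b ^ 3 * A1 ^ 2) (-(17 / 40)) 0 4 (by norm_num),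
    ev2 (96 * b ^ 3 * CQ * A1) (-(1 / 40)) 0 4 (by norm_num),
    ev2 (8 * b ^ 2) (-(1 / 40)) 0 0 (by norm_num),
    ev2 (48 * b ^ 2 * CQ) (-(33 / 80)) (-(3 / 10)) 2 (by norm_num),
    ev2 (4 * b ^ 2 * A1 ^ 2) (-(6 / 5)) (-(3 / 10)) 4 (by norm_num),
    ev2 4 (-(3 / 20)) 0 0 (by norm_num),
    ev2 (192 * A1 * c ^ 2) (-(1 / 200)) 0 2 (by norm_num),
    ev2 5 6 7 0 (by norm_num),
    ev4 (12 * d + 12) 1 (1 / 50) (by norm_num) (by norm_num),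
    ev4 (12 * d + 12) (1 / (4 * b ^ 2)) (1 / 40) (by positivity) (by norm_num),
    ev4 (12 * d + 12) (1 / 4) (3 / 20) (by norm_num) (by norm_num)] with
    y h1 h2 h3 h4 h5 h6 h7 h8 h9 h10 h11 h12 h13 h14 h15 h16 h17 h18
  simp only [pow_zero, mul_one, zero_mul, Real.exp_zero] at h2 h3 h4 h5 h6 h7 h8 h9 h10 h13 h14 h15 h16
  constructor <;> first | assumption | linarith

theorem pr1 (d : ℕ) (b c A1 CQ y : ℝ) (hN : OK2 d b c A1 CQ y) (Y ρ δ σ g1 : ℝ) (L p : ℕ)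
    (hY : Y = Real.exp (y / 100)) (hρ : ρ = Real.exp Y) (hL : (L : ℝ) ≤ Real.exp (7 * y))
    (hA1 : 0 ≤ A1) (hδ : δ⁻¹ = Real.exp (79 / 40 * y)) (hδ0 : 0 < δ)
    (hσ : σ = Real.exp (-1 * y)) (hg10 : 0 ≤ g1) (hg1 : g1 ≤ A1 * y ^ 2)
    (hp : p = ⌈Real.exp (1 / 50 * y)⌉₊) :
    (3 * ρ) ^ d * ((8 * d / δ) * ((32 * p * g1 * c ^ 2 * σ ^ 2 / δ) ^ p *
      (L : ℝ) ^ d)) ≤ Real.exp (-Y - 2) := by
  obtain ⟨f1, f2⟩ := fac d y Y ρ L hρ hL
  have hy1 := hN.y1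
  have hY0 : 0 < Y := by rw [hY]; positivity
  have hdY : 0 ≤ d * Y := by positivity
  have hdy : 0 ≤ d * y := by positivity
  have hρ0 : 0 < ρ := by rw [hρ]; positivity
  have h3ρ0 : 0 ≤ (3 * ρ) ^ d := by positivity
  obtain ⟨X, hX⟩ : ∃ X : ℝ, X = 32 * p * g1 * c ^ 2 * σ ^ 2 / δ := ⟨_, rfl⟩
  rw [← hX]
  have hX0 : 0 ≤ X := by rw [hX]; positivity
  have hp1 : Real.exp (1 / 50 * y) ≤ p := by
    rw [hp]
    exact Nat.le_ceil _
  have hp2 : (p : ℝ) ≤ 2 * Real.exp (1 / 50 * y) := by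
    have h1 := Nat.ceil_lt_add_one (show 0 ≤ Real.exp (1 / 50 * y) by positivity)
    rw [← hp] at h1
    have h2 : (1 : ℝ) ≤ Real.exp (1 / 50 * y) := Real.one_le_exp (by linarith)
    linarith
  have hX1 : X ≤ 1 / 3 := by
    calc X = 32 * p * g1 * c ^ 2 * σ ^ 2 * δ⁻¹ := by rw [hX, div_eq_mul_inv]
      _ ≤ 32 * (2 * Real.exp (1 / 50 * y)) * (A1 * y ^ 2) * c ^ 2 * Real.exp (-1 * y) ^ 2 *
          Real.exp (79 / 40 * y) := by
          rw [hδ, hσ]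
          gcongr
      _ = 1 / 3 * (192 * A1 * c ^ 2 * y ^ 2 * (Real.exp (1 / 50 * y) * Real.exp (-1 * y) ^ 2 *
          Real.exp (79 / 40 * y))) := by ring
      _ = 1 / 3 * (192 * A1 * c ^ 2 * y ^ 2 * Real.exp (-(1 / 200) * y)) := by
          rw [ex_pow, ex_mul, ex_mul]
          norm_num
      _ ≤ 1 / 3 := by
          have := hN.n14
          linarith
  have hX2 : X ≤ Real.exp (-1) := by
    have h1 := Real.exp_one_lt_three
    have h2 : (1 : ℝ) / 3 ≤ (Real.exp 1)⁻¹ := by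
      rw [one_div]
      exact inv_anti₀ (Real.exp_pos _) h1.le
    rw [Real.exp_neg]
    linarith
  have hXp : X ^ p ≤ Real.exp (-Real.exp (1 / 50 * y)) := by
    calc X ^ p ≤ (Real.exp (-1)) ^ p := pow_le_pow_left₀ hX0 hX2 p
      _ = Real.exp (-(p : ℝ)) := by
        rw [← Real.exp_nat_mul]
        congr 1
        ring
      _ ≤ _ := Real.exp_le_exp.2 (neg_le_neg hp1)
  have h8 : 8 * d / δ ≤ Real.exp (8 * d) * Real.exp (79 / 40 * y) := by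
    rw [div_eq_mul_inv, hδ]
    have := Real.add_one_le_exp (8 * (d : ℝ))
    have h9 : 8 * (d : ℝ) ≤ Real.exp (8 * d) := by linarith
    gcongr
  have h80 : 0 ≤ 8 * d / δ := by positivity
  calc (3 * ρ) ^ d * ((8 * d / δ) * (X ^ p * (L : ℝ) ^ d)) ≤
      Real.exp (d * (2 + Y)) * ((Real.exp (8 * d) * Real.exp (79 / 40 * y)) *
        (Real.exp (-Real.exp (1 / 50 * y)) * Real.exp (7 * d * y))) := by gcongr
    _ = Real.exp (d * (2 + Y) + ((8 * d + 79 / 40 * y) +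
        (-Real.exp (1 / 50 * y) + 7 * d * y))) := by
        rw [← Real.exp_add, ← Real.exp_add, ← Real.exp_add, ← Real.exp_add]
    _ ≤ Real.exp (-Y - 2) := by
        apply Real.exp_le_exp.2
        have h1 := hN.n16
        rw [← hY] at h1
        clear hX hX0 hX1 hX2 hXp h8 h80 hp1 hp2 f1 f2 h3ρ0
        linarith

theorem pr2 (d : ℕ) (b c A1 CQ y : ℝ) (hb : 0 < b) (hN : OK2 d b c A1 CQ y)
    (Y ρ t β N cnt : ℝ) (L : ℕ)
    (hY : Y = Real.exp (y / 100)) (hρ : ρ = Real.exp Y) (hL : (L : ℝ) ≤ Real.exp (7 * y))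
    (hNL : N = (L : ℝ) ^ d) (hN0 : 0 < N) (ht : t = Real.exp (-(87 / 40) * y))
    (hβ : β = b * Real.exp (-1 * y)) (hcnt1 : 1 ≤ cnt)
    (hcnt2 : cnt ≤ 2 * Real.exp (-(19 / 8) * y) * N) :
    (3 * ρ) ^ d * (2 * N * Real.exp (-(t ^ 2 * N / (2 * β ^ 2 * cnt)))) ≤
      Real.exp (-Y - 2) := by
  obtain ⟨f1, f2⟩ := fac d y Y ρ L hρ hL
  have hy1 := hN.y1
  have hY0 : 0 < Y := by rw [hY]; positivity
  have hdY : 0 ≤ d * Y := by positivity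
  have hdy : 0 ≤ d * y := by positivity
  have hρ0 : 0 < ρ := by rw [hρ]; positivity
  have hβ0 : 0 < β := by rw [hβ]; positivity
  have h3ρ0 : 0 ≤ (3 * ρ) ^ d := by positivity
  have h1 : 1 / (4 * b ^ 2) * Real.exp (1 / 40 * y) ≤ t ^ 2 * N / (2 * β ^ 2 * cnt) := by
    rw [le_div_iff₀ (by positivity)]
    calc 1 / (4 * b ^ 2) * Real.exp (1 / 40 * y) * (2 * β ^ 2 * cnt) ≤
        1 / (4 * b ^ 2) * Real.exp (1 / 40 * y) * (2 * (b * Real.exp (-1 * y)) ^ 2 *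
          (2 * Real.exp (-(19 / 8) * y) * N)) := by
          rw [hβ]
          gcongr
      _ = (Real.exp (1 / 40 * y) * Real.exp (-1 * y) ^ 2 * Real.exp (-(19 / 8) * y)) * N := by
          field_simp
          ring
      _ = t ^ 2 * N := by
          rw [ht, ex_pow, ex_pow, ex_mul, ex_mul]
          norm_num
      _ ≤ _ := le_rfl
  have h2 : N ≤ Real.exp (7 * d * y) := by
    rw [hNL]
    exact f2
  have h3 : (2 : ℝ) ≤ Real.exp 1 := by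
    have he1 := Real.exp_one_gt_d9
    linarith
  calc (3 * ρ) ^ d * (2 * N * Real.exp (-(t ^ 2 * N / (2 * β ^ 2 * cnt)))) ≤
      Real.exp (d * (2 + Y)) * (Real.exp 1 * Real.exp (7 * d * y) *
        Real.exp (-(1 / (4 * b ^ 2) * Real.exp (1 / 40 * y)))) := by gcongr
    _ = Real.exp (d * (2 + Y) + ((1 + 7 * d * y) +
        (-(1 / (4 * b ^ 2) * Real.exp (1 / 40 * y))))) := by
        rw [← Real.exp_add, ← Real.exp_add, ← Real.exp_add]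
    _ ≤ Real.exp (-Y - 2) := by
        apply Real.exp_le_exp.2
        have h1 := hN.n17
        rw [← hY] at h1
        clear f1 f2 h3ρ0 h2 h3 hcnt1 hcnt2 hN0 hNL
        linarith

theorem pr3 (d : ℕ) (b c A1 CQ y : ℝ) (hN : OK2 d b c A1 CQ y)
    (Y ρ D : ℝ) (L M : ℕ)
    (hY : Y = Real.exp (y / 100)) (hρ : ρ = Real.exp Y) (hL : (L : ℝ) ≤ Real.exp (7 * y))
    (hD : D = Real.exp (-(3 / 20) * y))
    (hM2 : (2 * M + 1 : ℝ) ≤ (4 * d + 5) * Real.exp (87 / 40 * y)) :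
    (3 * ρ) ^ d * ((2 * M + 1) * Real.exp (-(1 / (4 * D)))) ≤ Real.exp (-Y - 2) := by
  obtain ⟨f1, f2⟩ := fac d y Y ρ L hρ hL
  have hy1 := hN.y1
  have hY0 : 0 < Y := by rw [hY]; positivity
  have hdY : 0 ≤ d * Y := by positivity
  have hdy : 0 ≤ d * y := by positivity
  have hρ0 : 0 < ρ := by rw [hρ]; positivity
  have h3ρ0 : 0 ≤ (3 * ρ) ^ d := by positivity
  have h1 : 1 / (4 * D) = 1 / 4 * Real.exp (3 / 20 * y) := by
    rw [hD, one_div, mul_inv, ex_inv]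
    norm_num
  have h2 : (4 * (d : ℝ) + 5) ≤ Real.exp (4 * d + 5) := by
    have := Real.add_one_le_exp (4 * (d : ℝ) + 5)
    linarith
  rw [h1]
  calc (3 * ρ) ^ d * ((2 * M + 1) * Real.exp (-(1 / 4 * Real.exp (3 / 20 * y)))) ≤
      Real.exp (d * (2 + Y)) * ((Real.exp (4 * d + 5) * Real.exp (87 / 40 * y)) *
        Real.exp (-(1 / 4 * Real.exp (3 / 20 * y)))) := by
        have h3 : (2 * M + 1 : ℝ) ≤ Real.exp (4 * d + 5) * Real.exp (87 / 40 * y) :=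
          hM2.trans (mul_le_mul_of_nonneg_right h2 (Real.exp_pos _).le)
        gcongr
    _ = Real.exp (d * (2 + Y) + ((4 * d + 5 + 87 / 40 * y) +
        (-(1 / 4 * Real.exp (3 / 20 * y))))) := by
        rw [← Real.exp_add, ← Real.exp_add, ← Real.exp_add]
    _ ≤ Real.exp (-Y - 2) := by
        apply Real.exp_le_exp.2
        have h1 := hN.n18
        rw [← hY] at h1
        clear f1 f2 h3ρ0 h2 hM2
        linarith

end Pool.Agent.TH311.AN2.Num
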