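import Pool.Agent.TH311.AN2.Cnt

/-! Two energy shells in dimension two: the result. -/

set_option autoImplicit false
set_option linter.unusedSectionVars false

open scoped BigOperators

namespace Pool.Agent.TH311.AN2

open Pool.Agent.W788.MFP.Four (T adj NN NN_pos)
open Pool.Agent.W788.MFP.Dos (a a_abs mm count1)
open Pool.Agent.W788.BK (JJ Low cr)

variable {L : ℕ} [NeZero L]

/-- `√(x² + δ²)` -/
noncomputable def jj (δ x : ℝ) : ℝ := Real.sqrt (x ^ 2 + δ ^ 2)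

theorem jj_pos (δ x : ℝ) (hδ : 0 < δ) : 0 < jj δ x := Real.sqrt_pos.2 (by positivity)

theorem jj_ge (δ x : ℝ) (hδ : 0 < δ) : max |x| δ ≤ jj δ x := by
  unfold jj
  apply max_le
  · rw [← Real.sqrt_sq_eq_abs]
    exact Real.sqrt_le_sqrt (by nlinarith [sq_nonneg δ])
  · exact Real.le_sqrt_of_sq_le (by nlinarith [sq_nonneg x])

/-- away from the critical energies one of the two momenta is not critical -/
theorem mm_cases (κ : ℝ) (E x y : ℝ) (hE : κ ≤ |E|) (hE2 : |E| ≤ 4 - κ)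
    (hxy : |x + y - E| < κ / 2) : κ / 4 ≤ mm (E - x) ∨ κ / 4 ≤ mm (E - y) := by
  by_contra hcon
  push Not at hcon
  obtain ⟨h1, h2⟩ := hcon
  unfold mm at h1 h2
  rw [abs_lt] at h1 h2 hxy
  rcases le_or_gt 0 (E - x) with g1 | g1 <;> rcases le_or_gt 0 (E - y) with g2 | g2 <;>
  rcases le_or_gt 0 E with g3 | g3 <;>
  simp only [abs_of_nonneg, abs_of_neg, g1, g2, g3] at h1 h2 hE hE2 <;>
  linarith [h1.1, h1.2, h2.1, h2.2, hxy.1, hxy.2]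

/-- the pointwise bound -/
theorem point (κ : ℝ) (hκ : 0 < κ) (P1 P2 : ZMod L) (E δ : ℝ) (hE : κ ≤ |E|)
    (hE2 : |E| ≤ 4 - κ) (hδ : 0 < δ) (p1 p2 : ZMod L) :
    (jj δ (xm E P1 P2 p1 p2))⁻¹ *
      (max (jj δ (xm E P1 P2 p1 p2)) (jj δ (xp E P1 P2 p1 p2)))⁻¹ ≤
    2 / κ * (jj δ (xp E P1 P2 p1 p2))⁻¹ +
    (if κ / 4 ≤ mm (E - a (p1 - P1)) then
      (max (mS E P1 P2 p1) δ)⁻¹ * (max |a (p2 - P2) - (E - a (p1 - P1))| δ)⁻¹ else 0) +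
    (if κ / 4 ≤ mm (E - a (p2 - P2)) then
      (max (mS E P2 P1 p2) δ)⁻¹ * (max |a (p1 - P1) - (E - a (p2 - P2))| δ)⁻¹ else 0) := by
  obtain ⟨x, hx⟩ : ∃ x, x = xm E P1 P2 p1 p2 := ⟨_, rfl⟩
  obtain ⟨y, hy⟩ : ∃ y, y = xp E P1 P2 p1 p2 := ⟨_, rfl⟩
  have hx1 : a (p2 - P2) - (E - a (p1 - P1)) = x := by
    rw [hx]
    unfold xm
    ring
  have hx2 : a (p1 - P1) - (E - a (p2 - P2)) = x := by
    rw [hx]
    unfold xm
    ring
  have hm1 : mS E P1 P2 p1 ≤ max |x| |y| := by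
    rw [hx, hy]
    exact mS_le E P1 P2 p1 p2
  have hm2 : mS E P2 P1 p2 ≤ max |x| |y| := by
    have h := mS_le E P2 P1 p2 p1
    have e1 : xm E P2 P1 p2 p1 = x := by
      rw [hx]
      unfold xm
      ring
    have e2 : xp E P2 P1 p2 p1 = y := by
      rw [hy]
      unfold xp
      ring
    rwa [e1, e2] at h
  rw [hx1, hx2, ← hx, ← hy]
  have jx := jj_pos δ x hδ
  have jy := jj_pos δ y hδ
  have gx := jj_ge δ x hδ
  have gy := jj_ge δ y hδ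
  have hmaxg : max (max |x| |y|) δ ≤ max (jj δ x) (jj δ y) := by
    apply max_le (max_le _ _)
    · exact ((le_max_right _ _).trans gx).trans (le_max_left _ _)
    · exact ((le_max_left _ _).trans gx).trans (le_max_left _ _)
    · exact ((le_max_left _ _).trans gy).trans (le_max_right _ _)
  have hmd : ∀ m : ℝ, m ≤ max |x| |y| → (max (jj δ x) (jj δ y))⁻¹ ≤ (max m δ)⁻¹ := by
    intro m hm
    apply inv_anti₀ (lt_of_lt_of_le hδ (le_max_right _ _))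
    exact (max_le_max hm le_rfl).trans hmaxg
  have hxd : (jj δ x)⁻¹ ≤ (max |x| δ)⁻¹ := inv_anti₀ (lt_of_lt_of_le hδ (le_max_right _ _)) gx
  have hn1 : 0 ≤ (if κ / 4 ≤ mm (E - a (p1 - P1)) then
      (max (mS E P1 P2 p1) δ)⁻¹ * (max |x| δ)⁻¹ else 0) := by
    split_ifs
    · have : 0 < max (mS E P1 P2 p1) δ := lt_of_lt_of_le hδ (le_max_right _ _)
      positivity
    · exact le_rfl
  have hn2 : 0 ≤ (if κ / 4 ≤ mm (E - a (p2 - P2)) then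
      (max (mS E P2 P1 p2) δ)⁻¹ * (max |x| δ)⁻¹ else 0) := by
    split_ifs
    · have : 0 < max (mS E P2 P1 p2) δ := lt_of_lt_of_le hδ (le_max_right _ _)
      positivity
    · exact le_rfl
  have hn0 : 0 ≤ 2 / κ * (jj δ y)⁻¹ := by positivity
  have hJm : 0 ≤ (max (jj δ x) (jj δ y))⁻¹ := by
    have : 0 < max (jj δ x) (jj δ y) := lt_of_lt_of_le jx (le_max_left _ _)
    positivity
  rcases le_or_gt (κ / 2) |x| with h | h
  · have e1 : (jj δ x)⁻¹ ≤ 2 / κ := by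
      rw [inv_le_comm₀ jx (by positivity), inv_div]
      exact h.trans ((le_max_left _ _).trans gx)
    have e2 : (max (jj δ x) (jj δ y))⁻¹ ≤ (jj δ y)⁻¹ := inv_anti₀ jy (le_max_right _ _)
    have e3 : (jj δ x)⁻¹ * (max (jj δ x) (jj δ y))⁻¹ ≤ 2 / κ * (jj δ y)⁻¹ := by gcongr
    linarith
  · rcases mm_cases κ E (a (p1 - P1)) (a (p2 - P2)) hE hE2 (by
      have : a (p1 - P1) + a (p2 - P2) - E = x := by
        rw [hx]
        rfl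
      rw [this]
      exact h) with h1 | h1
    · rw [if_pos h1] at hn1 ⊢
      have e1 : (jj δ x)⁻¹ * (max (jj δ x) (jj δ y))⁻¹ ≤
          (max |x| δ)⁻¹ * (max (mS E P1 P2 p1) δ)⁻¹ := by
        have := hmd _ hm1
        have h0 : 0 ≤ (max |x| δ)⁻¹ := le_trans (inv_nonneg.2 jx.le) hxd
        gcongr
      linarith
    · rw [if_pos h1] at hn2 ⊢
      have e1 : (jj δ x)⁻¹ * (max (jj δ x) (jj δ y))⁻¹ ≤
          (max |x| δ)⁻¹ * (max (mS E P2 P1 p2) δ)⁻¹ := by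
        have := hmd _ hm2
        have h0 : 0 ≤ (max |x| δ)⁻¹ := le_trans (inv_nonneg.2 jx.le) hxd
        gcongr
      linarith

/-- splitting the momenta of dimension two -/
theorem sum_T2 (f : T 2 L → ℝ) : ∑ k, f k = ∑ x : ZMod L, ∑ y : ZMod L, f ![x, y] := by
  rw [← (finTwoArrowEquiv (ZMod L)).symm.sum_comp, Fintype.sum_prod_type]
  rfl

theorem adj2 (x y : ZMod L) : adj (![x, y] : T 2 L) = a x + a y := by
  unfold adj
  rw [Fin.sum_univ_two]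
  rfl

/-- the sum over the shifted shell -/
theorem jsum (P1 P2 : ZMod L) (E δ : ℝ) (hδ1 : δ ≤ 1 / 2) (hL : 1 / (L : ℝ) ≤ δ) :
    ∑ p1 : ZMod L, ∑ p2 : ZMod L, (jj δ (xp E P1 P2 p1 p2))⁻¹ ≤
      1700 * Real.log (1 / δ) ^ 2 * (L : ℝ) ^ 2 := by
  have h1 := Pool.Agent.W788.MF2.Dos2d.green2 (L := L) δ hL hδ1 E
  rw [inv_mul_le_iff₀ NN_pos] at h1
  have h2 : ∑ k : T 2 L, (Pool.Agent.W788.MFP.Form.J E δ k)⁻¹ =
      ∑ p1 : ZMod L, ∑ p2 : ZMod L, (jj δ (xp E P1 P2 p1 p2))⁻¹ := by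
    rw [sum_T2]
    rw [← Equiv.sum_comp (Equiv.addRight P1) fun x : ZMod L => ∑ y : ZMod L,
      (Pool.Agent.W788.MFP.Form.J E δ (![x, y] : T 2 L))⁻¹]
    refine Finset.sum_congr rfl fun p1 _ => ?_
    rw [← Equiv.sum_comp (Equiv.addRight P2) fun y : ZMod L =>
      (Pool.Agent.W788.MFP.Form.J E δ (![(Equiv.addRight P1) p1, y] : T 2 L))⁻¹]
    refine Finset.sum_congr rfl fun p2 _ => ?_
    unfold Pool.Agent.W788.MFP.Form.J jj xp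
    rw [adj2]
    rfl
  rw [← h2]
  refine h1.trans (le_of_eq ?_)
  unfold NN
  ring

/-- one half of the sum -/
theorem half (κ : ℝ) (hκ : 0 < κ) (hκ1 : κ ≤ 1) (P1 P2 : ZMod L) (E σ δ : ℝ)
    (hE : κ ≤ |E|) (hE2 : |E| ≤ 4 - κ) (hσ : 0 < σ) (hs1 : |si P1| ≤ σ)
    (hs2 : |si P2| ≤ σ) (hm : σ = |si P1| ∨ σ = |si P2|) (hδ : 0 < δ) (hδ1 : δ ≤ 1 / 2)
    (hL : 1 / (L : ℝ) ≤ (δ / 2) ^ 2) :
    ∑ p1 : ZMod L, ∑ p2 : ZMod L, (jj δ (xm E P1 P2 p1 p2))⁻¹ *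
      (max (jj δ (xm E P1 P2 p1 p2)) (jj δ (xp E P1 P2 p1 p2)))⁻¹ ≤
      1300000 / κ ^ 3 * Real.log (1 / δ) ^ 2 * ((Real.sqrt δ)⁻¹ + σ⁻¹) * (L : ℝ) ^ 2 := by
  classical
  have hL0 : (0 : ℝ) < L := by exact_mod_cast Nat.pos_of_ne_zero (NeZero.ne L)
  have hLδ : 1 / (L : ℝ) ≤ δ := hL.trans (by nlinarith)
  obtain ⟨l, hl⟩ : ∃ l, l = Real.log (1 / δ) := ⟨_, rfl⟩
  have hl0 : 0 ≤ l := by
    rw [hl]
    apply Real.log_nonneg
    rw [le_div_iff₀ hδ]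
    linarith
  obtain ⟨Y, hY⟩ : ∃ Y, Y = (Real.sqrt δ)⁻¹ + σ⁻¹ := ⟨_, rfl⟩
  have hsδ : 0 < Real.sqrt δ := Real.sqrt_pos.2 hδ
  have hY1 : 1 ≤ Y := by
    rw [hY]
    have e1 : 1 ≤ (Real.sqrt δ)⁻¹ := by
      rw [one_le_inv₀ hsδ]
      exact Real.sqrt_le_one.2 (by linarith)
    have e2 : 0 ≤ σ⁻¹ := by positivity
    linarith
  -- the three terms
  have t0 := jsum (L := L) P1 P2 E δ hδ1 hLδ
  have t1 : ∑ p1 : ZMod L, ∑ p2 : ZMod L, (if κ / 4 ≤ mm (E - a (p1 - P1)) then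
      (max (mS E P1 P2 p1) δ)⁻¹ * (max |a (p2 - P2) - (E - a (p1 - P1))| δ)⁻¹ else 0) ≤
      640200 / κ ^ 3 * l ^ 2 * Y * (L : ℝ) ^ 2 := by
    have e1 : ∀ p1 : ZMod L, ∑ p2 : ZMod L, (if κ / 4 ≤ mm (E - a (p1 - P1)) then
        (max (mS E P1 P2 p1) δ)⁻¹ * (max |a (p2 - P2) - (E - a (p1 - P1))| δ)⁻¹ else 0) ≤
        (max (mS E P1 P2 p1) δ)⁻¹ * (66 / κ * l * L) := by
      intro p1
      have hpos : 0 < max (mS E P1 P2 p1) δ := lt_of_lt_of_le hδ (le_max_right _ _)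
      by_cases h : κ / 4 ≤ mm (E - a (p1 - P1))
      · simp only [if_pos h]
        rw [← Finset.mul_sum]
        have := fsum (L := L) κ hκ hκ1 P2 (E - a (p1 - P1)) δ h hδ hδ1 hLδ
        rw [← hl] at this
        gcongr
      · simp only [if_neg h, Finset.sum_const_zero]
        positivity
    refine (Finset.sum_le_sum fun p1 _ => e1 p1).trans ?_
    rw [← Finset.sum_mul]
    have e2 := msum (L := L) κ hκ hκ1 P1 P2 E σ δ hE hE2 hσ hs1 hs2 hm hδ hδ1 hL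
    rw [← hl, ← hY] at e2
    calc (∑ p1 : ZMod L, (max (mS E P1 P2 p1) δ)⁻¹) * (66 / κ * l * L) ≤
          (9700 / κ ^ 2 * l * Y * L) * (66 / κ * l * L) := by gcongr
      _ = _ := by ring
  have t2 : ∑ p1 : ZMod L, ∑ p2 : ZMod L, (if κ / 4 ≤ mm (E - a (p2 - P2)) then
      (max (mS E P2 P1 p2) δ)⁻¹ * (max |a (p1 - P1) - (E - a (p2 - P2))| δ)⁻¹ else 0) ≤
      640200 / κ ^ 3 * l ^ 2 * Y * (L : ℝ) ^ 2 := by
    rw [Finset.sum_comm]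
    have e1 : ∀ p2 : ZMod L, ∑ p1 : ZMod L, (if κ / 4 ≤ mm (E - a (p2 - P2)) then
        (max (mS E P2 P1 p2) δ)⁻¹ * (max |a (p1 - P1) - (E - a (p2 - P2))| δ)⁻¹ else 0) ≤
        (max (mS E P2 P1 p2) δ)⁻¹ * (66 / κ * l * L) := by
      intro p2
      have hpos : 0 < max (mS E P2 P1 p2) δ := lt_of_lt_of_le hδ (le_max_right _ _)
      by_cases h : κ / 4 ≤ mm (E - a (p2 - P2))
      · simp only [if_pos h]
        rw [← Finset.mul_sum]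
        have := fsum (L := L) κ hκ hκ1 P1 (E - a (p2 - P2)) δ h hδ hδ1 hLδ
        rw [← hl] at this
        gcongr
      · simp only [if_neg h, Finset.sum_const_zero]
        positivity
    refine (Finset.sum_le_sum fun p2 _ => e1 p2).trans ?_
    rw [← Finset.sum_mul]
    have e2 := msum (L := L) κ hκ hκ1 P2 P1 E σ δ hE hE2 hσ hs2 hs1 hm.symm hδ hδ1 hL
    rw [← hl, ← hY] at e2
    calc (∑ p2 : ZMod L, (max (mS E P2 P1 p2) δ)⁻¹) * (66 / κ * l * L) ≤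
          (9700 / κ ^ 2 * l * Y * L) * (66 / κ * l * L) := by gcongr
      _ = _ := by ring
  rw [← hl] at t0 ⊢
  rw [← hY]
  refine (Finset.sum_le_sum fun p1 _ => Finset.sum_le_sum fun p2 _ =>
    point (L := L) κ hκ P1 P2 E δ hE hE2 hδ p1 p2).trans ?_
  simp only [Finset.sum_add_distrib]
  have e0 : ∑ p1 : ZMod L, ∑ p2 : ZMod L, 2 / κ * (jj δ (xp E P1 P2 p1 p2))⁻¹ ≤
      3400 / κ ^ 3 * l ^ 2 * Y * (L : ℝ) ^ 2 := by
    simp only [← Finset.mul_sum]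
    have hκ3 : κ ^ 3 ≤ κ := by
      have : κ ^ 2 ≤ 1 := pow_le_one₀ hκ.le hκ1
      nlinarith
    calc 2 / κ * ∑ p1 : ZMod L, ∑ p2 : ZMod L, (jj δ (xp E P1 P2 p1 p2))⁻¹ ≤
          2 / κ * (1700 * l ^ 2 * (L : ℝ) ^ 2) := by gcongr
      _ = 3400 / κ * l ^ 2 * 1 * (L : ℝ) ^ 2 := by ring
      _ ≤ 3400 / κ ^ 3 * l ^ 2 * Y * (L : ℝ) ^ 2 := by gcongr
  have hfin : 3400 / κ ^ 3 * l ^ 2 * Y * (L : ℝ) ^ 2 + 640200 / κ ^ 3 * l ^ 2 * Y * (L : ℝ) ^ 2 +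
      640200 / κ ^ 3 * l ^ 2 * Y * (L : ℝ) ^ 2 ≤ 1300000 / κ ^ 3 * l ^ 2 * Y * (L : ℝ) ^ 2 := by
    have e1 : 0 ≤ (κ ^ 3)⁻¹ * l ^ 2 * Y * (L : ℝ) ^ 2 := by positivity
    have e2 : 3400 / κ ^ 3 * l ^ 2 * Y * (L : ℝ) ^ 2 + 640200 / κ ^ 3 * l ^ 2 * Y * (L : ℝ) ^ 2 +
        640200 / κ ^ 3 * l ^ 2 * Y * (L : ℝ) ^ 2 =
        1283800 * ((κ ^ 3)⁻¹ * l ^ 2 * Y * (L : ℝ) ^ 2) := by
      rw [div_eq_mul_inv, div_eq_mul_inv]
      ring
    have e3 : 1300000 / κ ^ 3 * l ^ 2 * Y * (L : ℝ) ^ 2 =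
        1300000 * ((κ ^ 3)⁻¹ * l ^ 2 * Y * (L : ℝ) ^ 2) := by
      rw [div_eq_mul_inv]
      ring
    rw [e2, e3]
    linarith
  linarith

/-- **two shells in dimension two** -/
theorem qb2 (κ : ℝ) (hκ : 0 < κ) (hκ1 : κ ≤ 1) (hodd : Odd L) (θ δ E : ℝ) (hθ : 0 < θ)
    (hδ : 0 < δ) (hδ1 : δ ≤ 1 / 2) (hL : 1 / (L : ℝ) ≤ (δ / 2) ^ 2) (hE : κ ≤ |E|)
    (hE2 : |E| ≤ 4 - κ) (Q : T 2 L) (hQ : ¬ Low θ Q) :
    ∑ k : T 2 L, (JJ E δ k * JJ E δ (k + Q))⁻¹ ≤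
      2600000 / κ ^ 3 * Real.log (1 / δ) ^ 2 * ((Real.sqrt δ)⁻¹ + θ⁻¹) * NN 2 L := by
  classical
  -- half of the transfer momentum
  obtain ⟨m, hm⟩ := hodd
  have hhalf : ∀ q : ZMod L, ∃ P : ZMod L, P + P = q := by
    intro q
    refine ⟨((m + 1 : ℕ) : ZMod L) * q, ?_⟩
    have h1 : ((m + 1 : ℕ) : ZMod L) + ((m + 1 : ℕ) : ZMod L) = 1 := by
      have h2 : (((m + 1) + (m + 1) : ℕ) : ZMod L) = ((L + 1 : ℕ) : ZMod L) := by
        congr 1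
        omega
      rw [Nat.cast_add, Nat.cast_add L 1, ZMod.natCast_self, zero_add, Nat.cast_one] at h2
      exact h2
    rw [← add_mul, h1, one_mul]
  obtain ⟨P1, hP1⟩ := hhalf (Q 0)
  obtain ⟨P2, hP2⟩ := hhalf (Q 1)
  have hQ2 : Q = ![P1 + P1, P2 + P2] := by
    funext i
    fin_cases i
    · exact hP1.symm
    · exact hP2.symm
  have hsi : ∀ P : ZMod L, (1 - cr (P + P)) / 2 = si P ^ 2 := by
    intro P
    have h1 : cr (P + P) = co P * co P - si P * si P := co_add P P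
    rw [h1]
    have h2 := co_sq P
    nlinarith
  obtain ⟨σ, hσdef⟩ : ∃ σ, σ = max |si P1| |si P2| := ⟨_, rfl⟩
  have hσθ : θ ≤ σ := by
    by_contra hcon
    push Not at hcon
    apply hQ
    left
    intro i
    have h1 : |si P1| ≤ θ := ((le_max_left _ _).trans (le_of_eq hσdef.symm)).trans hcon.le
    have h2 : |si P2| ≤ θ := ((le_max_right _ _).trans (le_of_eq hσdef.symm)).trans hcon.le
    rw [hQ2]
    fin_cases i
    · show (1 - cr (P1 + P1)) / 2 ≤ θ ^ 2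
      rw [hsi, ← sq_abs]
      exact pow_le_pow_left₀ (abs_nonneg _) h1 2
    · show (1 - cr (P2 + P2)) / 2 ≤ θ ^ 2
      rw [hsi, ← sq_abs]
      exact pow_le_pow_left₀ (abs_nonneg _) h2 2
  have hσ : 0 < σ := lt_of_lt_of_le hθ hσθ
  have hs1 : |si P1| ≤ σ := by rw [hσdef]; exact le_max_left _ _
  have hs2 : |si P2| ≤ σ := by rw [hσdef]; exact le_max_right _ _
  have hm' : σ = |si P1| ∨ σ = |si P2| := by
    rw [hσdef]
    rcases max_choice |si P1| |si P2| with h | h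
    · exact Or.inl h
    · exact Or.inr h
  -- the sum in the new variables
  have h1 : ∑ k : T 2 L, (JJ E δ k * JJ E δ (k + Q))⁻¹ = ∑ p1 : ZMod L, ∑ p2 : ZMod L,
      (jj δ (xm E P1 P2 p1 p2) * jj δ (xp E P1 P2 p1 p2))⁻¹ := by
    rw [sum_T2]
    rw [← Equiv.sum_comp (Equiv.subRight P1) fun x : ZMod L => ∑ y : ZMod L,
      (JJ E δ (![x, y] : T 2 L) * JJ E δ (![x, y] + Q))⁻¹]
    refine Finset.sum_congr rfl fun p1 _ => ?_
    rw [← Equiv.sum_comp (Equiv.subRight P2) fun y : ZMod L =>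
      (JJ E δ (![(Equiv.subRight P1) p1, y] : T 2 L) *
        JJ E δ (![(Equiv.subRight P1) p1, y] + Q))⁻¹]
    refine Finset.sum_congr rfl fun p2 _ => ?_
    have e1 : (![(Equiv.subRight P1) p1, (Equiv.subRight P2) p2] : T 2 L) + Q =
        ![p1 + P1, p2 + P2] := by
      rw [hQ2]
      funext i
      fin_cases i
      · show p1 - P1 + (P1 + P1) = p1 + P1
        abel
      · show p2 - P2 + (P2 + P2) = p2 + P2
        abel
    rw [e1]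
    unfold JJ jj xm xp
    rw [adj2, adj2]
    rfl
  have hpt : ∀ p1 p2 : ZMod L, (jj δ (xm E P1 P2 p1 p2) * jj δ (xp E P1 P2 p1 p2))⁻¹ ≤
      (jj δ (xm E P1 P2 p1 p2))⁻¹ *
        (max (jj δ (xm E P1 P2 p1 p2)) (jj δ (xp E P1 P2 p1 p2)))⁻¹ +
      (jj δ (xm E (-P1) (-P2) p1 p2))⁻¹ *
        (max (jj δ (xm E (-P1) (-P2) p1 p2)) (jj δ (xp E (-P1) (-P2) p1 p2)))⁻¹ := by
    intro p1 p2
    have e1 : xm E (-P1) (-P2) p1 p2 = xp E P1 P2 p1 p2 := by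
      unfold xm xp
      rw [sub_neg_eq_add, sub_neg_eq_add]
    have e2 : xp E (-P1) (-P2) p1 p2 = xm E P1 P2 p1 p2 := by
      unfold xm xp
      rw [← sub_eq_add_neg, ← sub_eq_add_neg]
    rw [e1, e2]
    obtain ⟨x, hx⟩ : ∃ x, x = jj δ (xm E P1 P2 p1 p2) := ⟨_, rfl⟩
    obtain ⟨y, hy⟩ : ∃ y, y = jj δ (xp E P1 P2 p1 p2) := ⟨_, rfl⟩
    have hx0 : 0 < x := by rw [hx]; exact jj_pos _ _ hδ
    have hy0 : 0 < y := by rw [hy]; exact jj_pos _ _ hδ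
    rw [← hx, ← hy, mul_inv]
    rcases le_total x y with h | h
    · rw [max_eq_right h, max_eq_left h]
      have : 0 ≤ y⁻¹ * y⁻¹ := by positivity
      linarith
    · rw [max_eq_left h, max_eq_right h]
      have : 0 ≤ x⁻¹ * x⁻¹ := by positivity
      have e3 : x⁻¹ * y⁻¹ = y⁻¹ * x⁻¹ := mul_comm _ _
      linarith
  have hA := half (L := L) κ hκ hκ1 P1 P2 E σ δ hE hE2 hσ hs1 hs2 hm' hδ hδ1 hL
  have hB := half (L := L) κ hκ hκ1 (-P1) (-P2) E σ δ hE hE2 hσ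
    (by rw [si_neg, abs_neg]; exact hs1) (by rw [si_neg, abs_neg]; exact hs2)
    (by rw [si_neg, si_neg, abs_neg, abs_neg]; exact hm') hδ hδ1 hL
  have hl0 : 0 ≤ Real.log (1 / δ) ^ 2 := sq_nonneg _
  have hsδ : 0 < Real.sqrt δ := Real.sqrt_pos.2 hδ
  have hinv : σ⁻¹ ≤ θ⁻¹ := inv_anti₀ hθ hσθ
  rw [h1]
  refine (Finset.sum_le_sum fun p1 _ => Finset.sum_le_sum fun p2 _ => hpt p1 p2).trans ?_
  simp only [Finset.sum_add_distrib]
  have hfin : 1300000 / κ ^ 3 * Real.log (1 / δ) ^ 2 * ((Real.sqrt δ)⁻¹ + σ⁻¹) * (L : ℝ) ^ 2 ≤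
      1300000 / κ ^ 3 * Real.log (1 / δ) ^ 2 * ((Real.sqrt δ)⁻¹ + θ⁻¹) * (L : ℝ) ^ 2 := by
    gcongr
  unfold NN
  calc _ ≤ 1300000 / κ ^ 3 * Real.log (1 / δ) ^ 2 * ((Real.sqrt δ)⁻¹ + σ⁻¹) * (L : ℝ) ^ 2 +
        1300000 / κ ^ 3 * Real.log (1 / δ) ^ 2 * ((Real.sqrt δ)⁻¹ + σ⁻¹) * (L : ℝ) ^ 2 :=
        add_le_add hA hB
    _ ≤ _ := by
        have e1 : 2600000 / κ ^ 3 = 2 * (1300000 / κ ^ 3) := by ring
        rw [e1]
        linarith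

end Pool.Agent.TH311.AN2
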