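import Pool.Agent.TH311.AN2.Lat2
import Pool.Agent.TH311.AN2.Num2
import Pool.Agent.TH311.AN2.QB2
import Pool.Agent.W788.BK.Param

/-! The choice of the parameters in dimension two. -/

set_option autoImplicit false
set_option linter.unusedSectionVars false

open scoped BigOperators Matrix
open MeasureTheory

namespace Pool.Agent.TH311.AN2

open Pool.Agent.W788.BK
open Pool.Agent.W788.MFP.Four (T e NN adj K ft Op q NN_pos e_zero)
open Pool.Agent.W788.MFP.Form (J)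
open Pool.Agent.W788.MF2.Dom Pool.Agent.W788.MF2.FormG
open Pool.Agent.H4R2.LO (Zd)
open Pool.Agent.W788.BK.Num
open Pool.Agent.TH311.AN2.Num

/-- bulk energies -/
def Bulk (ka E : ℝ) : Prop := ka ≤ |E| ∧ |E| ≤ 4 - ka

/-- the bound of the sum of `1/J` -/
theorem sumJ2 {L : ℕ} [NeZero L] (δ : ℝ) (h1 : 1 / (L : ℝ) ≤ δ) (h2 : δ ≤ 1 / 2)
    (E : ℝ) : ∑ k : T 2 L, (JJ E δ k)⁻¹ ≤ 1700 * Real.log (1 / δ) ^ 2 * NN 2 L := by
  have h := Pool.Agent.W788.MF2.Dos2d.green2 δ h1 h2 E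
  rw [inv_mul_le_iff₀ NN_pos] at h
  unfold JJ
  unfold J at h
  linarith

/-- a crude bound -/
theorem crude {L : ℕ} [NeZero L] (E δ : ℝ) (hδ : 0 < δ) (P : T 2 L) :
    ∑ k : T 2 L, (JJ E δ k * JJ E δ (k + P))⁻¹ ≤ (δ⁻¹) ^ 2 * NN 2 L := by
  have h1 : ∀ k : T 2 L, (JJ E δ k * JJ E δ (k + P))⁻¹ ≤ (δ⁻¹) ^ 2 := by
    intro k
    have e1 : ∀ k : T 2 L, δ ≤ JJ E δ k := Pool.Agent.W788.MFP.Form.J_ge E δ hδ
    have e2 := e1 k
    have e3 := e1 (k + P)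
    rw [inv_pow]
    apply inv_anti₀ (by positivity)
    rw [sq]
    exact mul_le_mul e2 e3 hδ.le (hδ.le.trans e2)
  refine (Finset.sum_le_sum fun k _ => h1 k).trans (le_of_eq ?_)
  rw [Finset.sum_const, nsmul_eq_mul, Finset.card_univ, Pool.Agent.W788.MFP.Four.card_T]
  ring

/-- **the engine** -/
theorem engine2 (hTH : S_THIRD) (hFL : S_FLUCT) (hIN : S_INV) (hMB : S_MB) (hCO : S_CONC)
    (hSU : S_SUP) (hSI : S_SITE) (hLO : S_LOW) (hAD : S_ADM) (ka : ℝ) (hka : 0 < ka)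
    (hka1 : ka ≤ 1) (b : ℝ) (hb : 0 < b) : ∃ y0 : ℝ, ∀ y : ℝ, y0 ≤ y →
    ∀ (ν : Measure ℝ), IsProbabilityMeasure ν → (∀ᵐ s ∂ν, |s| ≤ b) → ∫ s, s ∂ν = 0 →
    ∃ G : Set (Zd 2 → ℝ), MeasurableSet G ∧
      1 - Real.exp (-Real.exp (y / 100)) ≤ (Measure.infinitePi fun _ : Zd 2 => ν).real G ∧
      ∀ ξ ∈ G, SMB 2 (Bulk (2 * ka)) (Real.exp (-1 * y)) (Real.exp (Real.exp (y / 100)))
        (Real.exp (-(87 / 40) * y)) (192 * (1700 * (87 / 40 * y) ^ 2)) ξ := by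
  obtain ⟨d, hd2⟩ : ∃ d : ℕ, d = 2 := ⟨_, rfl⟩
  obtain ⟨CQ, hCQdef⟩ : ∃ CQ : ℝ, CQ = 2600000 / ka ^ 3 := ⟨_, rfl⟩
  have hCQ : 0 < CQ := by rw [hCQdef]; positivity
  obtain ⟨A1, hA1⟩ : ∃ A1 : ℝ, A1 = 1700 * 4 + 2 := ⟨_, rfl⟩
  obtain ⟨c, hc⟩ : ∃ c, c = b / m1 := ⟨_, rfl⟩
  obtain ⟨y0, hy0⟩ := Filter.eventually_atTop.1 ((ok2 2 b c A1 CQ hb).and
    (ev2 (1 / ka) (-(87 / 40)) 0 0 (by norm_num)))
  refine ⟨y0, fun y hy ν hν hνb hν0 => ?_⟩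
  have hN := (hy0 y hy).1
  have htka := (hy0 y hy).2
  clear hd2 d
  have hy1 := hN.y1
  -- the parameters
  obtain ⟨σ, hσ⟩ : ∃ σ, σ = Real.exp (-1 * y) := ⟨_, rfl⟩
  obtain ⟨δ, hδ⟩ : ∃ δ, δ = Real.exp (-(79 / 40) * y) := ⟨_, rfl⟩
  obtain ⟨η, hη⟩ : ∃ η, η = Real.exp (-(1 / 5) * y) := ⟨_, rfl⟩
  obtain ⟨t, ht⟩ : ∃ t, t = Real.exp (-(87 / 40) * y) := ⟨_, rfl⟩
  have htηδ : η * δ = t := by
    rw [hη, hδ, ht, ex_mul]
    norm_num
  obtain ⟨θ, hθ⟩ : ∃ θ, θ = 1 / 2 * Real.exp (-(19 / 16) * y) := ⟨_, rfl⟩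
  obtain ⟨L, hL⟩ : ∃ L : ℕ, L = 2 * ⌈Real.exp (6 * y)⌉₊ + 1 := ⟨_, rfl⟩
  have hLodd : Odd L := ⟨_, hL⟩
  have hσ0 : 0 < σ := by rw [hσ]; positivity
  have hδ0 : 0 < δ := by rw [hδ]; positivity
  have hη0 : 0 < η := by rw [hη]; positivity
  have ht0 : 0 < t := by rw [ht]; positivity
  have hθ0 : 0 < θ := by rw [hθ]; positivity
  have hη1 : η ≤ 1 := by
    rw [hη]
    exact Real.exp_le_one_iff.2 (by linarith)
  have hδ6 : δ ≤ 1 / 6 := by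
    rw [hδ]
    linarith [hN.n1]
  have hL1 : Real.exp (6 * y) ≤ L := by
    have h1 := Nat.le_ceil (Real.exp (6 * y))
    rw [hL]
    push_cast
    have h2 := Real.exp_pos (6 * y)
    linarith
  have hL2 : (L : ℝ) ≤ Real.exp (7 * y) := by
    have h1 := Nat.ceil_lt_add_one (show 0 ≤ Real.exp (6 * y) by positivity)
    have h2 := hN.n15
    have h3 : (1 : ℝ) ≤ Real.exp (6 * y) := Real.one_le_exp (by linarith)
    rw [hL]
    push_cast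
    linarith
  have hLp : (0 : ℝ) < L := lt_of_lt_of_le (by positivity) hL1
  have hLne : NeZero L := ⟨by
    intro h0
    rw [h0] at hLp
    simp at hLp⟩
  have hθ1 : θ ≤ 1 := by
    rw [hθ]
    have : Real.exp (-(19 / 16) * y) ≤ 1 := Real.exp_le_one_iff.2 (by linarith)
    linarith
  have hθd : (2 * θ) ^ 2 = Real.exp (-(19 / 8) * y) := by
    rw [hθ]
    have e1 : 2 * (1 / 2 * Real.exp (-(19 / 16) * y)) = Real.exp (-(19 / 16) * y) := by ring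
    rw [e1, ex_pow]
    norm_num
  have hθL : 1 ≤ θ * L := by
    have h1 := hN.n5
    have h3 : Real.exp (-(19 / 16) * y) * Real.exp (19 / 16 * y) = 1 := by
      rw [ex_mul]
      simp
    calc (1 : ℝ) = 1 / 2 * (Real.exp (-(19 / 16) * y) * (2 * Real.exp (19 / 16 * y))) := by
          linear_combination (-1) * h3
      _ ≤ 1 / 2 * (Real.exp (-(19 / 16) * y) * L) := by
          have : 2 * Real.exp (19 / 16 * y) ≤ L := by linarith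
          gcongr
      _ = _ := by rw [hθ]; ring
  -- the momenta
  obtain ⟨N, hNdef⟩ : ∃ N, N = NN 2 L := ⟨_, rfl⟩
  have hN0 : 0 < N := by rw [hNdef]; exact NN_pos
  obtain ⟨cnt, hcnt⟩ : ∃ cnt, cnt = ∑ Q : T 2 L, (1 - hi θ Q) := ⟨_, rfl⟩
  have hcnt1 : 1 ≤ cnt := by rw [hcnt]; exact cnt_ge θ
  have hcnt2 : cnt ≤ 2 * Real.exp (-(19 / 8) * y) * N := by
    rw [hcnt, hNdef, ← hθd]
    exact hLO 2 L θ hθ0.le hθ1 hθL
  have hLδ : 1 / (L : ℝ) ≤ t := by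
    rw [div_le_iff₀ hLp]
    have h1 : Real.exp (-(87 / 40) * y) * Real.exp (6 * y) ≤ t * L := by
      rw [← ht]
      gcongr
    rw [ex_mul] at h1
    have h2 : (1 : ℝ) ≤ Real.exp ((-(87 / 40) + 6) * y) := Real.one_le_exp (by linarith)
    linarith
  have htδ : t ≤ δ := by
    rw [← htηδ]
    exact mul_le_of_le_one_left hδ0.le hη1
  obtain ⟨g1, hg1⟩ : ∃ g1, g1 = 1700 * (79 / 40 * y) ^ 2 := ⟨_, rfl⟩
  obtain ⟨g, hg⟩ : ∃ g, g = 1700 * (87 / 40 * y) ^ 2 := ⟨_, rfl⟩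
  have hlogδ : Real.log (1 / δ) = 79 / 40 * y := by
    rw [hδ, one_div, Real.log_inv, Real.log_exp]
    ring
  have hlogt : Real.log (1 / t) = 87 / 40 * y := by
    rw [ht, one_div, Real.log_inv, Real.log_exp]
    ring
  have hg10 : 0 ≤ g1 := by rw [hg1]; positivity
  have hg1A : g1 + 2 ≤ A1 * y ^ 2 := by
    rw [hg1, hA1]
    nlinarith
  have hA10 : 0 < A1 := by rw [hA1]; norm_num
  have hgg1 : 1 ≤ g := by
    rw [hg]
    nlinarith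
  have hδ2 : δ ≤ 1 / 2 := by linarith
  have ht2 : t ≤ 1 / 2 := htδ.trans hδ2
  have hsumδ : ∀ E : ℝ, ∑ k : T 2 L, (JJ E δ k)⁻¹ ≤ g1 * N := by
    intro E
    have h1 := sumJ2 (L := L) δ (hLδ.trans htδ) hδ2 E
    rw [hlogδ, ← hg1, ← hNdef] at h1
    exact h1
  have hsumt : ∀ E : ℝ, ∑ k : T 2 L, (JJ E t k)⁻¹ ≤ g * N := by
    intro E
    have h1 := sumJ2 (L := L) t hLδ ht2 E
    rw [hlogt, ← hg, ← hNdef] at h1
    exact h1
  have hGB : GB 2 L δ g1 := by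
    intro E
    have h1 := hsumδ E
    rw [inv_mul_le_iff₀ NN_pos, ← hNdef]
    have h2 : ∑ k : T 2 L, (J E δ k)⁻¹ = ∑ k : T 2 L, (JJ E δ k)⁻¹ := rfl
    rw [h2]
    linarith
  have hδinv : δ⁻¹ = Real.exp (79 / 40 * y) := by
    rw [hδ, ex_inv]
    norm_num
  have hLδ2 : 1 / (L : ℝ) ≤ (δ / 2) ^ 2 := by
    rw [div_le_iff₀ hLp]
    have h1 : 4 * Real.exp (79 / 20 * y) ≤ L := hN.n4.trans hL1
    have h2 : δ ^ 2 * Real.exp (79 / 20 * y) = 1 := by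
      rw [hδ, ex_pow, ex_mul]
      norm_num
    calc (1 : ℝ) = (δ / 2) ^ 2 * (4 * Real.exp (79 / 20 * y)) := by
          linear_combination (-1) * h2
      _ ≤ (δ / 2) ^ 2 * L := by gcongr
  obtain ⟨Q, hQ⟩ : ∃ Q, Q = CQ * Real.log (1 / δ) ^ 2 * ((Real.sqrt δ)⁻¹ + θ⁻¹) := ⟨_, rfl⟩
  have hQ0 : 0 ≤ Q := by rw [hQ]; positivity
  obtain ⟨a, ha⟩ : ∃ a, a = g1 + cnt / (N * δ) := ⟨_, rfl⟩
  obtain ⟨v2, hv2⟩ : ∃ v2, v2 = g1 / δ := ⟨_, rfl⟩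
  have hadm : ∀ E, Bulk ka E → Adm (D0 E δ) (AA (d := 2) (L := L) E δ θ) a v2 Q := by
    intro E hE
    rw [ha, hv2, hcnt, hNdef]
    refine hAD 2 L E δ θ g1 Q hδ0 hg10 hQ0 (by rw [← hNdef]; exact hsumδ E) ?_
    intro P hP
    rw [hQ, hCQdef]
    exact qb2 ka hka hka1 hLodd θ δ E hθ0 hδ0 hδ2 hLδ2 hE.1 hE.2 P hP
  have hadm0 : ∀ E, Adm (D0 E δ) (AA (d := 2) (L := L) E δ θ) a v2 ((δ⁻¹) ^ 2) := by
    intro E
    rw [ha, hv2, hcnt, hNdef]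
    exact hAD 2 L E δ θ g1 ((δ⁻¹) ^ 2) hδ0 hg10 (by positivity)
      (by rw [← hNdef]; exact hsumδ E) (fun P _ => crude E δ hδ0 P)
  -- bounds of the parameters
  have ha1 : a ≤ A1 * y ^ 2 := by
    refine le_trans ?_ hg1A
    rw [ha]
    have h1 : cnt / (N * δ) ≤ 2 := by
      rw [div_le_iff₀ (by positivity)]
      have h2 : Real.exp (-(19 / 8) * y) ≤ δ := by
        rw [hδ]
        apply Real.exp_le_exp.2
        linarith
      calc cnt ≤ 2 * Real.exp (-(19 / 8) * y) * N := hcnt2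
        _ ≤ 2 * δ * N := by gcongr
        _ = _ := by ring
    linarith
  have ha0 : 0 ≤ a := by rw [ha]; positivity
  have hv21 : v2 ≤ A1 * y ^ 2 * Real.exp (79 / 40 * y) := by
    rw [hv2, div_eq_mul_inv, hδinv]
    have : g1 ≤ A1 * y ^ 2 := by linarith
    gcongr
  have hv20 : 0 ≤ v2 := by rw [hv2]; positivity
  have hQ1 : Q ≤ 12 * CQ * y ^ 2 * Real.exp (19 / 16 * y) := by
    rw [hQ, hlogδ]
    have h1 : (Real.sqrt δ)⁻¹ ≤ Real.exp (19 / 16 * y) := by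
      have h2 : Real.exp (-(79 / 80) * y) ≤ Real.sqrt δ := by
        apply Real.le_sqrt_of_sq_le
        rw [hδ, ex_pow]
        norm_num
      have h3 : (Real.sqrt δ)⁻¹ ≤ (Real.exp (-(79 / 80) * y))⁻¹ := inv_anti₀ (by positivity) h2
      refine h3.trans ?_
      rw [ex_inv]
      apply Real.exp_le_exp.2
      linarith
    have h2 : θ⁻¹ = 2 * Real.exp (19 / 16 * y) := by
      rw [hθ, mul_inv, ex_inv]
      norm_num
    calc CQ * (79 / 40 * y) ^ 2 * ((Real.sqrt δ)⁻¹ + θ⁻¹) ≤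
        CQ * (2 * y) ^ 2 * (Real.exp (19 / 16 * y) + 2 * Real.exp (19 / 16 * y)) := by
          have : 79 / 40 * y ≤ 2 * y := by linarith
          rw [h2]
          gcongr
      _ = _ := by ring
  -- the law
  obtain ⟨μ, hμdef⟩ : ∃ μ, μ = ν.map fun s => σ * s := ⟨_, rfl⟩
  have hmσ : Measurable fun s : ℝ => σ * s := by fun_prop
  have hμp : IsProbabilityMeasure μ := by
    rw [hμdef]
    exact Measure.isProbabilityMeasure_map hmσ.aemeasurable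
  obtain ⟨β, hβ⟩ : ∃ β, β = b * σ := ⟨_, rfl⟩
  have hβ0 : 0 < β := by rw [hβ]; positivity
  have hμb : ∀ᵐ s ∂μ, |s| ≤ β := by
    rw [hμdef, ae_map_iff hmσ.aemeasurable (measurableSet_le (by fun_prop) (by fun_prop))]
    filter_upwards [hνb] with s hs
    rw [abs_mul, abs_of_pos hσ0, hβ, mul_comm b]
    gcongr
  have hμ0 : ∫ s, s ∂μ = 0 := by
    rw [hμdef, integral_map hmσ.aemeasurable (by fun_prop), integral_const_mul, hν0, mul_zero]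
  obtain ⟨s2, hs2⟩ : ∃ s2, ∫ s, s ^ 2 ∂μ = s2 := ⟨_, rfl⟩
  have hs20 : 0 ≤ s2 := by
    rw [← hs2]
    exact integral_nonneg fun s => sq_nonneg _
  have hs2β : s2 ≤ β ^ 2 := by
    rw [← hs2]
    have h1 : ∫ s, s ^ 2 ∂μ ≤ ∫ _s, β ^ 2 ∂μ := by
      apply integral_mono_of_nonneg (Filter.Eventually.of_forall fun s => sq_nonneg _)
        (integrable_const _)
      filter_upwards [hμb] with s hs
      rw [← sq_abs s]
      exact pow_le_pow_left₀ (abs_nonneg _) hs 2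
    rw [integral_const, probReal_univ, one_smul] at h1
    exact h1
  have hββ : β = b * Real.exp (-1 * y) := by rw [hβ, hσ]
  have hηinv : η⁻¹ = Real.exp (1 / 5 * y) := by
    rw [hη, ex_inv]
    norm_num
  have hAy1 : 1 ≤ A1 * y ^ 2 := by linarith
  -- the conditions
  have k1 : β * a ≤ η := by
    calc β * a ≤ (b * Real.exp (-1 * y)) * (A1 * y ^ 2) := by
          rw [hββ]
          gcongr
      _ = b * A1 * y ^ 2 * Real.exp (-1 * y) := by ring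
      _ ≤ η := by
          rw [hη]
          exact hN.n6
  have k2 : β ^ 2 * v2 ≤ 1 := by
    calc β ^ 2 * v2 ≤ (b * Real.exp (-1 * y)) ^ 2 * (A1 * y ^ 2 * Real.exp (79 / 40 * y)) := by
          rw [hββ]
          gcongr
      _ = b ^ 2 * A1 * y ^ 2 * (Real.exp (-1 * y) ^ 2 * Real.exp (79 / 40 * y)) := by ring
      _ = b ^ 2 * A1 * y ^ 2 * Real.exp (-(1 / 40) * y) := by
          rw [ex_pow, ex_mul]
          norm_num
      _ ≤ 1 := hN.n7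
  have hsv : Real.sqrt v2 ≤ A1 * y ^ 2 * Real.exp (79 / 80 * y) := by
    rw [Real.sqrt_le_left (by positivity)]
    calc v2 ≤ A1 * y ^ 2 * Real.exp (79 / 40 * y) := hv21
      _ ≤ (A1 * y ^ 2) * (A1 * y ^ 2) * Real.exp (79 / 40 * y) := by
          have : A1 * y ^ 2 * 1 ≤ (A1 * y ^ 2) * (A1 * y ^ 2) := by gcongr
          rw [mul_one] at this
          gcongr
      _ = (A1 * y ^ 2 * Real.exp (79 / 80 * y)) ^ 2 := by
          rw [mul_pow (A1 * y ^ 2), ex_pow]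
          norm_num
          ring
  have k3 : 4 * β ^ 3 * a * v2 / η ^ 3 + s2 * (2 * β * Q * Real.sqrt v2 / η ^ 4) ≤ 1 / 2 := by
    have h1 : 4 * β ^ 3 * a * v2 / η ^ 3 ≤ 1 / 4 := by
      calc 4 * β ^ 3 * a * v2 / η ^ 3 = 4 * β ^ 3 * a * v2 * (η⁻¹) ^ 3 := by
            rw [inv_pow, div_eq_mul_inv]
        _ ≤ 4 * (b * Real.exp (-1 * y)) ^ 3 * (A1 * y ^ 2) *
            (A1 * y ^ 2 * Real.exp (79 / 40 * y)) * (Real.exp (1 / 5 * y)) ^ 3 := by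
            rw [hββ, hηinv]
            gcongr
        _ = 1 / 4 * (16 * b ^ 3 * A1 ^ 2 * y ^ 4 * (Real.exp (-1 * y) ^ 3 *
            Real.exp (79 / 40 * y) * Real.exp (1 / 5 * y) ^ 3)) := by ring
        _ = 1 / 4 * (16 * b ^ 3 * A1 ^ 2 * y ^ 4 * Real.exp (-(17 / 40) * y)) := by
            rw [ex_pow, ex_pow, ex_mul, ex_mul]
            norm_num
        _ ≤ 1 / 4 := by linarith [hN.n8]
    have h2 : s2 * (2 * β * Q * Real.sqrt v2 / η ^ 4) ≤ 1 / 4 := by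
      calc s2 * (2 * β * Q * Real.sqrt v2 / η ^ 4) =
            s2 * (2 * β * Q * Real.sqrt v2 * (η⁻¹) ^ 4) := by
            rw [inv_pow, div_eq_mul_inv]
        _ ≤ (b * Real.exp (-1 * y)) ^ 2 * (2 * (b * Real.exp (-1 * y)) *
            (12 * CQ * y ^ 2 * Real.exp (19 / 16 * y)) * (A1 * y ^ 2 * Real.exp (79 / 80 * y)) *
            (Real.exp (1 / 5 * y)) ^ 4) := by
            rw [hββ] at hs2β ⊢
            rw [hηinv]
            gcongr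
        _ = 1 / 4 * (96 * b ^ 3 * CQ * A1 * y ^ 4 * (Real.exp (-1 * y) ^ 2 * Real.exp (-1 * y) *
            Real.exp (19 / 16 * y) * Real.exp (79 / 80 * y) * Real.exp (1 / 5 * y) ^ 4)) := by
            ring
        _ = 1 / 4 * (96 * b ^ 3 * CQ * A1 * y ^ 4 * Real.exp (-(1 / 40) * y)) := by
            rw [ex_pow, ex_pow, ex_mul, ex_mul, ex_mul, ex_mul]
            norm_num
        _ ≤ 1 / 4 := by linarith [hN.n9]
    linarith
  have k4 : s2 * cnt ≤ η ^ 2 * δ ^ 2 / 4 * N := by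
    calc s2 * cnt ≤ (b * Real.exp (-1 * y)) ^ 2 * (2 * Real.exp (-(19 / 8) * y) * N) := by
          rw [hββ] at hs2β
          gcongr
      _ = 1 / 4 * (8 * b ^ 2 * (Real.exp (-1 * y) ^ 2 * Real.exp (-(19 / 8) * y))) * N := by ring
      _ = 1 / 4 * (8 * b ^ 2 * Real.exp (-(1 / 40) * y) * Real.exp (-(87 / 20) * y)) * N := by
          rw [ex_pow, ex_mul, mul_assoc (8 * b ^ 2), ex_mul]
          norm_num
      _ ≤ 1 / 4 * (1 * Real.exp (-(87 / 20) * y)) * N := by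
          have := hN.n10
          gcongr
      _ = η ^ 2 * δ ^ 2 / 4 * N := by
          have : η ^ 2 * δ ^ 2 = Real.exp (-(87 / 20) * y) := by
            rw [← mul_pow, htηδ, ht, ex_pow]
            norm_num
          rw [this]
          ring
  obtain ⟨D, hD⟩ : ∃ D, D = Real.exp (-(3 / 20) * y) := ⟨_, rfl⟩
  have hD0 : 0 < D := by rw [hD]; positivity
  have hD4 : D ≤ 1 / 4 := by
    rw [hD]
    linarith [hN.n13]
  have hD2 : D ^ 2 = Real.exp (-(3 / 10) * y) := by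
    rw [hD, ex_pow]
    norm_num
  have k5 : 2 * β ^ 2 / η ^ 2 * (Q + a ^ 2 / η ^ 2) ≤ D ^ 2 := by
    have h1 : 2 * β ^ 2 * (η⁻¹) ^ 2 * Q ≤ 1 / 2 * Real.exp (-(3 / 10) * y) := by
      calc 2 * β ^ 2 * (η⁻¹) ^ 2 * Q ≤ 2 * (b * Real.exp (-1 * y)) ^ 2 *
            (Real.exp (1 / 5 * y)) ^ 2 * (12 * CQ * y ^ 2 * Real.exp (19 / 16 * y)) := by
            rw [hββ, hηinv]
            gcongr
        _ = 1 / 2 * (48 * b ^ 2 * CQ * y ^ 2 * (Real.exp (-1 * y) ^ 2 *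
            Real.exp (1 / 5 * y) ^ 2 * Real.exp (19 / 16 * y))) := by ring
        _ = 1 / 2 * (48 * b ^ 2 * CQ * y ^ 2 * Real.exp (-(33 / 80) * y)) := by
            rw [ex_pow, ex_pow, ex_mul, ex_mul]
            norm_num
        _ ≤ _ := by linarith [hN.n11]
    have h2 : 2 * β ^ 2 * (η⁻¹) ^ 2 * (a ^ 2 * (η⁻¹) ^ 2) ≤ 1 / 2 * Real.exp (-(3 / 10) * y) := by
      calc 2 * β ^ 2 * (η⁻¹) ^ 2 * (a ^ 2 * (η⁻¹) ^ 2) ≤ 2 * (b * Real.exp (-1 * y)) ^ 2 *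
            (Real.exp (1 / 5 * y)) ^ 2 * ((A1 * y ^ 2) ^ 2 * (Real.exp (1 / 5 * y)) ^ 2) := by
            rw [hββ, hηinv]
            gcongr
        _ = 1 / 2 * (4 * b ^ 2 * A1 ^ 2 * y ^ 4 * (Real.exp (-1 * y) ^ 2 *
            Real.exp (1 / 5 * y) ^ 2 * Real.exp (1 / 5 * y) ^ 2)) := by ring
        _ = 1 / 2 * (4 * b ^ 2 * A1 ^ 2 * y ^ 4 * Real.exp (-(6 / 5) * y)) := by
            rw [ex_pow, ex_pow, ex_mul, ex_mul]
            norm_num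
        _ ≤ _ := by linarith [hN.n12]
    rw [hD2]
    calc 2 * β ^ 2 / η ^ 2 * (Q + a ^ 2 / η ^ 2) = 2 * β ^ 2 * (η⁻¹) ^ 2 * Q +
          2 * β ^ 2 * (η⁻¹) ^ 2 * (a ^ 2 * (η⁻¹) ^ 2) := by
          rw [inv_pow, div_eq_mul_inv, div_eq_mul_inv]
          ring
      _ ≤ _ := by linarith
  -- the numbers `M` and `ℓ`
  obtain ⟨M, hM⟩ : ∃ M : ℕ, M = ⌈(2 * ((2 : ℕ) : ℝ) + 1) / t⌉₊ := ⟨_, rfl⟩
  have hM1 : (2 * ((2 : ℕ) : ℝ) + 1) ≤ η * δ * M := by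
    have h1 : (2 * ((2 : ℕ) : ℝ) + 1) / t ≤ M := by
      rw [hM]
      exact Nat.le_ceil _
    rw [div_le_iff₀ ht0] at h1
    rw [htηδ]
    linarith
  have htinv : t⁻¹ = Real.exp (87 / 40 * y) := by
    rw [ht, ex_inv]
    norm_num
  have hM2 : (2 * M + 1 : ℝ) ≤ (4 * ((2 : ℕ) : ℝ) + 5) * Real.exp (87 / 40 * y) := by
    have h1 := Nat.ceil_lt_add_one (show 0 ≤ (2 * ((2 : ℕ) : ℝ) + 1) / t by positivity)
    rw [← hM, div_eq_mul_inv, htinv] at h1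
    have h2 : (1 : ℝ) ≤ Real.exp (87 / 40 * y) := Real.one_le_exp (by linarith)
    push_cast at h1 ⊢
    linarith
  obtain ⟨ℓ, hℓ⟩ : ∃ ℓ, ℓ = 2 * ((2 : ℕ) : ℝ) / t := ⟨_, rfl⟩
  have hℓ1 : 2 * ((2 : ℕ) : ℝ) ≤ η * δ * ℓ := by
    rw [htηδ, hℓ]
    have : t * (2 * ((2 : ℕ) : ℝ) / t) = 2 * ((2 : ℕ) : ℝ) := by field_simp
    linarith
  have hL4 : 4 * ℓ + 4 < L := by
    rw [hℓ, div_eq_mul_inv, htinv]
    have h2 : (1 : ℝ) ≤ Real.exp (87 / 40 * y) := Real.one_le_exp (by linarith)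
    have h3 := hN.n3
    push_cast at h3 ⊢
    linarith
  have hmeas : MeasurableSet (Good2 (d := 2) (L := L) (Bulk ka) δ θ η g M) :=
    good_meas2 (Bulk ka) δ θ η g M hη0 (fun E => (hadm0 E).hX0) (fun E => (hadm0 E).hA)
  have hgood := good_prob2 (d := 2) (L := L) (Bulk ka) hTH hFL hIN hMB hCO hSU δ θ η a v2 Q β s2 g D M hδ0
    hη0 hη1 hadm μ hβ0 hμb hμ0 hs2 hs20 k1 k2 k3
    (by rw [htηδ, ← hNdef]; exact hsumt) (by rw [← hcnt, ← hNdef]; exact k4) hD0 hD4 k5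
  rw [hμdef, htηδ, ← hcnt, ← hNdef] at hgood
  obtain ⟨p, hp⟩ : ∃ p : ℕ, p = ⌈Real.exp (1 / 50 * y)⌉₊ := ⟨_, rfl⟩
  have hp1 : Real.exp (1 / 50 * y) ≤ p := by
    rw [hp]
    exact Nat.le_ceil _
  have hp0 : p ≠ 0 := by
    intro h0
    rw [h0] at hp1
    have := Real.exp_pos (1 / 50 * y)
    push_cast at hp1
    linarith
  obtain ⟨ρ, hρ⟩ : ∃ ρ, ρ = Real.exp (Real.exp (y / 100)) := ⟨_, rfl⟩
  have hρ1 : 1 ≤ ρ := by
    rw [hρ]
    exact Real.one_le_exp (Real.exp_pos _).le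
  have hdom : DomBy ν c := by
    rw [hc]
    exact dom_bdd ν b hb hνb hν0
  have hBB : ∀ E, Bulk (2 * ka) E → ∀ j : ℤ, |E - η * δ * j| ≤ η * δ →
      Bulk ka (η * δ * j) := by
    intro E hE j hj
    have htk : η * δ ≤ ka := by
      rw [htηδ, ht]
      simp only [pow_zero, mul_one, zero_mul, Real.exp_zero] at htka
      rw [div_mul_eq_mul_div, one_mul, div_le_one hka] at htka
      exact htka
    have h1 := abs_sub_abs_le_abs_sub E (η * δ * j)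
    have h2 := abs_sub_abs_le_abs_sub (η * δ * j) E
    rw [abs_sub_comm] at h2
    constructor
    · linarith [hE.1]
    · linarith [hE.2]
  have hfin := mainB2 (L := L) (Bulk ka) (Bulk (2 * ka)) hSI (by norm_num) ν c hdom σ ρ δ θ η g
    g1 ℓ M hσ0 hρ1 hδ0 hδ6 hη0 hη1
    hgg1 hGB hM1 hℓ1 hL4 hBB hmeas p hp0 _ (Real.exp (-Real.exp (y / 100))) hgood ?_
  · rw [← hσ, ← hρ, ← ht, ← hg, ← htηδ]
    exact hfin
  -- the probability
  obtain ⟨Y, hY⟩ : ∃ Y, Y = Real.exp (y / 100) := ⟨_, rfl⟩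
  have hρY : ρ = Real.exp Y := by rw [hρ, hY]
  have hg1A' : g1 ≤ A1 * y ^ 2 := by linarith
  have hNL : N = (L : ℝ) ^ 2 := hNdef
  have t1 := Num.pr1 2 b c A1 CQ y hN Y ρ δ σ g1 L p hY hρY hL2 hA10.le hδinv hδ0 hσ hg10 hg1A' hp
  have t2 := Num.pr2 2 b c A1 CQ y hb hN Y ρ t β N cnt L hY hρY hL2 hNL hN0 ht hββ hcnt1 hcnt2
  have t3 := Num.pr3 2 b c A1 CQ y hN Y ρ D L M hY hρY hL2 hD hM2
  rw [← hY, mul_add, mul_add]
  exact pr4 Y _ _ _ t1 t2 t3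

end Pool.Agent.TH311.AN2
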