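import Mathlib

/-! Two energy shells in dimension two: the algebra of the elimination. -/

set_option autoImplicit false

namespace Pool.Agent.TH311.AN2

/-- elimination of the second momentum -/
theorem elim (c1 s1 c2 s2 u v u' v' ε M : ℝ) (h1 : c1 ^ 2 + s1 ^ 2 = 1) (h2 : c2 ^ 2 + s2 ^ 2 = 1)
    (hu : u ^ 2 + v ^ 2 = 1) (hu' : u' ^ 2 + v' ^ 2 = 1) (hM : 0 ≤ M)
    (hα : |c1 * u + c2 * u' - ε| ≤ M) (hβ : |s1 * v + s2 * v'| ≤ M) :
    |(s2 ^ 2 - s1 ^ 2) * u ^ 2 - 2 * (ε * s2 ^ 2 * c1) * u +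
      (s2 ^ 2 * ε ^ 2 + c2 ^ 2 * s1 ^ 2 - s2 ^ 2 * c2 ^ 2)| ≤ 3 * M * |c2 * s2| + M ^ 2 := by
  obtain ⟨α, hαd⟩ : ∃ α, α = c1 * u + c2 * u' - ε := ⟨_, rfl⟩
  obtain ⟨β, hβd⟩ : ∃ β, β = s1 * v + s2 * v' := ⟨_, rfl⟩
  rw [← hαd] at hα
  rw [← hβd] at hβ
  have key : (s2 ^ 2 - s1 ^ 2) * u ^ 2 - 2 * (ε * s2 ^ 2 * c1) * u +
      (s2 ^ 2 * ε ^ 2 + c2 ^ 2 * s1 ^ 2 - s2 ^ 2 * c2 ^ 2) =
      -(s2 ^ 2 * (α * (2 * (c2 * u') - α))) + c2 ^ 2 * (β * (β - 2 * (s2 * v'))) := by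
    have e1 : ε = c1 * u + c2 * u' - α := by linarith
    rw [e1, hβd]
    have hs1 : s1 ^ 2 = 1 - c1 ^ 2 := by linarith
    have hs2 : s2 ^ 2 = 1 - c2 ^ 2 := by linarith
    have hv : v ^ 2 = 1 - u ^ 2 := by linarith
    have hv' : v' ^ 2 = 1 - u' ^ 2 := by linarith
    linear_combination (-(s2 ^ 2) * u ^ 2 - (1 - c2 ^ 2 - s2 ^ 2) * 0) * h1 + (s1 ^ 2 * u ^ 2) * h2 -
      (c2 ^ 2 * s1 ^ 2) * hu + (s2 ^ 2 * c2 ^ 2) * hu'
  rw [key]
  obtain ⟨A, hA⟩ : ∃ A, A = |c2| := ⟨_, rfl⟩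
  obtain ⟨B, hB⟩ : ∃ B, B = |s2| := ⟨_, rfl⟩
  have hA0 : 0 ≤ A := by rw [hA]; exact abs_nonneg _
  have hB0 : 0 ≤ B := by rw [hB]; exact abs_nonneg _
  have hA2 : c2 ^ 2 = A ^ 2 := by rw [hA, sq_abs]
  have hB2 : s2 ^ 2 = B ^ 2 := by rw [hB, sq_abs]
  have hAB : A ^ 2 + B ^ 2 = 1 := by rw [← hA2, ← hB2, h2]
  have hu1 : |u'| ≤ 1 := by
    rw [← sq_le_one_iff_abs_le_one]
    nlinarith [sq_nonneg v']
  have hv1 : |v'| ≤ 1 := by
    rw [← sq_le_one_iff_abs_le_one]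
    nlinarith [sq_nonneg u']
  have hcs : |c2 * s2| = A * B := by rw [abs_mul, hA, hB]
  have hsum : A + B ≤ 3 / 2 := by nlinarith [sq_nonneg (A - B)]
  have t1 : |α * (2 * (c2 * u') - α)| ≤ M * (2 * A + M) := by
    rw [abs_mul]
    have e1 : |2 * (c2 * u') - α| ≤ 2 * A + M := by
      refine (abs_sub _ _).trans ?_
      have e2 : |2 * (c2 * u')| ≤ 2 * A := by
        rw [abs_mul, abs_mul, abs_of_pos (by norm_num : (0 : ℝ) < 2), ← hA]
        have : A * |u'| ≤ A * 1 := by gcongr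
        linarith
      linarith
    gcongr
  have t2 : |β * (β - 2 * (s2 * v'))| ≤ M * (M + 2 * B) := by
    rw [abs_mul]
    have e1 : |β - 2 * (s2 * v')| ≤ M + 2 * B := by
      refine (abs_sub _ _).trans ?_
      have e2 : |2 * (s2 * v')| ≤ 2 * B := by
        rw [abs_mul, abs_mul, abs_of_pos (by norm_num : (0 : ℝ) < 2), ← hB]
        have : B * |v'| ≤ B * 1 := by gcongr
        linarith
      linarith
    gcongr
  rw [hA2, hB2, hcs]
  calc |-(B ^ 2 * (α * (2 * (c2 * u') - α))) + A ^ 2 * (β * (β - 2 * (s2 * v')))| ≤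
        B ^ 2 * |α * (2 * (c2 * u') - α)| + A ^ 2 * |β * (β - 2 * (s2 * v'))| := by
        refine (abs_add_le _ _).trans ?_
        rw [abs_neg, abs_mul (B ^ 2), abs_mul (A ^ 2), abs_of_nonneg (sq_nonneg B),
          abs_of_nonneg (sq_nonneg A)]
    _ ≤ B ^ 2 * (M * (2 * A + M)) + A ^ 2 * (M * (M + 2 * B)) := by gcongr
    _ = 2 * (A + B) * (M * (A * B)) + (A ^ 2 + B ^ 2) * M ^ 2 := by ring
    _ ≤ 2 * (3 / 2) * (M * (A * B)) + 1 * M ^ 2 := by
        rw [hAB]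
        have : 0 ≤ M * (A * B) := by positivity
        gcongr
    _ = 3 * M * (A * B) + M ^ 2 := by ring

/-- the roots of a quadratic polynomial and its small values -/
theorem roots (A B C D : ℝ) (hD : 0 < D) (hdisc : B ^ 2 - A * C = D ^ 2) :
    ∃ u1 u2 : ℝ, A * u1 ^ 2 - 2 * B * u1 + C = 0 ∧ A * u2 ^ 2 - 2 * B * u2 + C = 0 ∧
      ∀ u τ : ℝ, |A * u ^ 2 - 2 * B * u + C| ≤ τ → |u - u1| ≤ τ / D ∨ |u - u2| ≤ τ / D := by
  by_cases hA : A = 0
  · subst hA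
    have hB : B ^ 2 = D ^ 2 := by linarith
    have hBD : |B| = D := by
      rw [← abs_of_pos hD]
      exact (sq_eq_sq_iff_abs_eq_abs B D).1 hB
    have hB0 : B ≠ 0 := by
      intro h
      rw [h, abs_zero] at hBD
      linarith
    refine ⟨C / (2 * B), C / (2 * B), ?_, ?_, ?_⟩
    · field_simp
      ring
    · field_simp
      ring
    · intro u τ h
      left
      rw [le_div_iff₀ hD, ← hBD, ← abs_mul]
      have e1 : (u - C / (2 * B)) * B = -(1 / 2) * (0 * u ^ 2 - 2 * B * u + C) := by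
        field_simp
        ring
      rw [e1, abs_mul, abs_neg, abs_of_pos (by norm_num : (0 : ℝ) < 1 / 2)]
      have := abs_nonneg (0 * u ^ 2 - 2 * B * u + C)
      linarith
  · have hA0 : 0 < |A| := abs_pos.2 hA
    have hr : ∀ e : ℝ, e ^ 2 = D ^ 2 → A * ((B + e) / A) ^ 2 - 2 * B * ((B + e) / A) + C = 0 := by
      intro e he
      have e1 : A * (A * ((B + e) / A) ^ 2 - 2 * B * ((B + e) / A) + C) = 0 := by
        have e2 : A * ((B + e) / A) = B + e := by field_simp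
        have e3 : A * (A * ((B + e) / A) ^ 2 - 2 * B * ((B + e) / A) + C) =
            (A * ((B + e) / A)) ^ 2 - 2 * B * (A * ((B + e) / A)) + A * C := by ring
        rw [e3, e2]
        nlinarith
      exact (mul_eq_zero.1 e1).resolve_left hA
    refine ⟨(B + D) / A, (B + -D) / A, hr D rfl, hr (-D) (by ring), ?_⟩
    intro u τ h
    have hprod : A * (A * u ^ 2 - 2 * B * u + C) = (A * u - B - D) * (A * u - B + D) := by
      nlinarith
    have hab : |A * u - B - D| * |A * u - B + D| ≤ |A| * τ := by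
      rw [← abs_mul, ← hprod, abs_mul]
      gcongr
    rcases le_or_gt D |A * u - B + D| with h1 | h1
    · left
      have e1 : u - (B + D) / A = (A * u - B - D) / A := by
        field_simp
        ring
      rw [e1, abs_div, div_le_div_iff₀ hA0 hD]
      calc |A * u - B - D| * D ≤ |A * u - B - D| * |A * u - B + D| := by gcongr
        _ ≤ |A| * τ := hab
        _ = τ * |A| := by ring
    · right
      have h2 : D ≤ |A * u - B - D| := by
        have e1 : 2 * D = |(A * u - B + D) - (A * u - B - D)| := by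
          have : (A * u - B + D) - (A * u - B - D) = 2 * D := by ring
          rw [this, abs_of_pos (by linarith)]
        have e2 := abs_sub (A * u - B + D) (A * u - B - D)
        linarith
      have e1 : u - (B + -D) / A = (A * u - B + D) / A := by
        field_simp
        ring
      rw [e1, abs_div, div_le_div_iff₀ hA0 hD]
      calc |A * u - B + D| * D ≤ |A * u - B + D| * |A * u - B - D| := by gcongr
        _ = |A * u - B - D| * |A * u - B + D| := by ring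
        _ ≤ |A| * τ := hab
        _ = τ * |A| := by ring

/-- the discriminant -/
theorem disc (c1 s1 c2 s2 ε : ℝ) (h1 : c1 ^ 2 + s1 ^ 2 = 1) (h2 : c2 ^ 2 + s2 ^ 2 = 1) :
    (ε * s2 ^ 2 * c1) ^ 2 - (s2 ^ 2 - s1 ^ 2) *
      (s2 ^ 2 * ε ^ 2 + c2 ^ 2 * s1 ^ 2 - s2 ^ 2 * c2 ^ 2) =
      c2 ^ 2 * (ε ^ 2 * s1 ^ 2 * s2 ^ 2 + (s2 ^ 2 - s1 ^ 2) ^ 2) := by
  have e1 : c1 ^ 2 = 1 - s1 ^ 2 := by linarith
  have e2 : c2 ^ 2 = 1 - s2 ^ 2 := by linarith
  have e3 : (ε * s2 ^ 2 * c1) ^ 2 = ε ^ 2 * s2 ^ 4 * c1 ^ 2 := by ring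
  rw [e3, e1, e2]
  ring

end Pool.Agent.TH311.AN2
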