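import Pool.Agent.TH311.AN2.Geo
import Pool.Agent.W788.BK.Stm
import Pool.Agent.W788.MF2.Dos2d

/-! Two energy shells in dimension two: counting and summation. -/

set_option autoImplicit false
set_option linter.unusedSectionVars false

open scoped BigOperators

namespace Pool.Agent.TH311.AN2

open Pool.Agent.W788.MFP.Four (T adj NN NN_pos)
open Pool.Agent.W788.MFP.Dos (a a_abs mm count1 dy_point dy_log)

variable {L : ℕ} [NeZero L]

/-- cosine of a momentum -/
noncomputable def co (j : ZMod L) : ℝ := (ZMod.stdAddChar j : ℂ).re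

/-- sine of a momentum -/
noncomputable def si (j : ZMod L) : ℝ := (ZMod.stdAddChar j : ℂ).im

theorem a_co (j : ZMod L) : a j = 2 * co j := rfl

theorem co_sq (j : ZMod L) : co j ^ 2 + si j ^ 2 = 1 := by
  have h1 : ‖(ZMod.stdAddChar j : ℂ)‖ = 1 := AddChar.norm_apply _ _
  have h2 := Complex.sq_norm (ZMod.stdAddChar j : ℂ)
  rw [h1, Complex.normSq_apply] at h2
  unfold co si
  nlinarith

theorem co_add (i j : ZMod L) : co (i + j) = co i * co j - si i * si j := by
  unfold co si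
  rw [AddChar.map_add_eq_mul, Complex.mul_re]

theorem co_neg (j : ZMod L) : co (-j) = co j := by
  unfold co
  rw [ZMod.stdAddChar_apply, ZMod.stdAddChar_apply, AddChar.map_neg_eq_inv]
  simp

theorem si_neg (j : ZMod L) : si (-j) = -si j := by
  unfold si
  rw [ZMod.stdAddChar_apply, ZMod.stdAddChar_apply, AddChar.map_neg_eq_inv]
  simp

theorem co_sub (i j : ZMod L) : co (i - j) = co i * co j + si i * si j := by
  rw [sub_eq_add_neg, co_add, co_neg, si_neg]
  ring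

/-- the one-dimensional count for the cosine -/
theorem cntc (u0 r : ℝ) (hr : 1 / (L : ℝ) ≤ r) :
    ((Finset.univ.filter fun j : ZMod L => |co j - u0| ≤ r).card : ℝ) ≤
      8 * L * (r / Real.sqrt (max |(|u0| - 1)| r)) := by
  classical
  have hL : (0 : ℝ) < L := by exact_mod_cast Nat.pos_of_ne_zero (NeZero.ne L)
  have hr0 : 0 < r := lt_of_lt_of_le (by positivity) hr
  obtain ⟨ρ, hρ⟩ : ∃ ρ, ρ = |(|u0| - 1)| := ⟨_, rfl⟩
  rw [← hρ]
  have hm0 : 0 < max ρ r := lt_of_lt_of_le hr0 (le_max_right _ _)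
  rcases le_or_gt r 1 with h1 | h1
  · have h2 := count1 (L := L) (2 * u0) (2 * r) (by linarith) (by linarith)
    have e1 : mm (2 * u0) = 2 * ρ := by
      unfold mm
      rw [abs_mul, abs_of_pos (by norm_num : (0 : ℝ) < 2), hρ]
      have : 2 * |u0| - 2 = 2 * (|u0| - 1) := by ring
      rw [this, abs_mul, abs_of_pos (by norm_num : (0 : ℝ) < 2)]
    have e2 : (Finset.univ.filter fun j : ZMod L => |co j - u0| ≤ r) =
        Finset.univ.filter fun j : ZMod L => |a j - 2 * u0| ≤ 2 * r := by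
      apply Finset.filter_congr
      intro j _
      have : a j - 2 * u0 = 2 * (co j - u0) := by
        rw [a_co]
        ring
      rw [this, abs_mul, abs_of_pos (by norm_num : (0 : ℝ) < 2)]
      constructor <;> intro h <;> linarith
    rw [e2]
    refine h2.trans ?_
    rw [e1]
    have e3 : Real.sqrt (max ρ r) ≤ Real.sqrt (max (2 * ρ) (2 * r)) := by
      apply Real.sqrt_le_sqrt
      have hρ0 : 0 ≤ ρ := by rw [hρ]; exact abs_nonneg _
      apply max_le_max <;> linarith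
    have e4 : 0 < Real.sqrt (max ρ r) := Real.sqrt_pos.2 hm0
    calc 4 * L * (2 * r / Real.sqrt (max (2 * ρ) (2 * r))) ≤
          4 * L * (2 * r / Real.sqrt (max ρ r)) := by gcongr
      _ = _ := by ring
  · rcases (Finset.univ.filter fun j : ZMod L => |co j - u0| ≤ r).eq_empty_or_nonempty with h0 | h0
    · rw [h0]
      simp only [Finset.card_empty, Nat.cast_zero]
      positivity
    · obtain ⟨j, hj⟩ := h0
      have hj1 := (Finset.mem_filter.1 hj).2
      have hc : |co j| ≤ 1 := by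
        rw [← sq_le_one_iff_abs_le_one]
        nlinarith [co_sq j, sq_nonneg (si j)]
      have hρr : ρ ≤ r := by
        rw [hρ, abs_le]
        have e1 : |u0| ≤ |co j| + |co j - u0| := by
          have : u0 = co j - (co j - u0) := by ring
          calc |u0| = |co j - (co j - u0)| := by rw [← this]
            _ ≤ _ := abs_sub _ _
        constructor
        · linarith [abs_nonneg u0]
        · linarith
      rw [max_eq_right hρr]
      have e1 : r / Real.sqrt r = Real.sqrt r := by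
        rw [div_eq_iff (Real.sqrt_pos.2 hr0).ne', Real.mul_self_sqrt hr0.le]
      rw [e1]
      have e2 : 1 ≤ Real.sqrt r := Real.one_le_sqrt.2 h1.le
      have e3 : ((Finset.univ.filter fun j : ZMod L => |co j - u0| ≤ r).card : ℝ) ≤ L := by
        have := Finset.card_filter_le (Finset.univ : Finset (ZMod L)) fun j => |co j - u0| ≤ r
        rw [Finset.card_univ, ZMod.card] at this
        exact_mod_cast this
      nlinarith

/-- the count of the first momenta -/
theorem projcnt (κ : ℝ) (hκ : 0 < κ) (hκ1 : κ ≤ 1) (P1 P2 : ZMod L) (ε σ M : ℝ)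
    (hε : κ / 2 ≤ |ε|) (hε2 : |ε| ≤ 2 - κ / 2) (hσ : 0 < σ) (hs1 : |si P1| ≤ σ)
    (hs2 : |si P2| ≤ σ) (hm : σ = |si P1| ∨ σ = |si P2|) (hM : 0 < M) (hM1 : M ≤ κ / 8)
    (hL : 1 / (L : ℝ) ≤ M ^ 2) :
    ((Finset.univ.filter fun p1 : ZMod L => ∃ p2 : ZMod L,
      |co P1 * co p1 + co P2 * co p2 - ε| ≤ M ∧ |si P1 * si p1 + si P2 * si p2| ≤ M).card : ℝ) ≤
      16 * L * (101 / κ ^ 2 * (Real.sqrt M + M / σ)) := by
  classical
  have hL0 : (0 : ℝ) < L := by exact_mod_cast Nat.pos_of_ne_zero (NeZero.ne L)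
  obtain ⟨u1, u2, r, hr, b1, b2, h⟩ := geo κ hκ hκ1 (co P1) (si P1) (co P2) (si P2) ε σ M
    (co_sq P1) (co_sq P2) hε hε2 hσ hs1 hs2 hm hM hM1
  have hsub : (Finset.univ.filter fun p1 : ZMod L => ∃ p2 : ZMod L,
      |co P1 * co p1 + co P2 * co p2 - ε| ≤ M ∧ |si P1 * si p1 + si P2 * si p2| ≤ M) ⊆
      (Finset.univ.filter fun j : ZMod L => |co j - u1| ≤ r) ∪
      (Finset.univ.filter fun j : ZMod L => |co j - u2| ≤ r) := by
    intro p1 hp1
    obtain ⟨p2, ha, hb⟩ := (Finset.mem_filter.1 hp1).2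
    rw [Finset.mem_union, Finset.mem_filter, Finset.mem_filter]
    rcases h (co p1) (si p1) (co p2) (si p2) (co_sq p1) (co_sq p2) ha hb with h1 | h1
    · exact Or.inl ⟨Finset.mem_univ _, h1⟩
    · exact Or.inr ⟨Finset.mem_univ _, h1⟩
  have h1 := cntc (L := L) u1 r (hL.trans hr)
  have h2 := cntc (L := L) u2 r (hL.trans hr)
  have h3 : ((Finset.univ.filter fun p1 : ZMod L => ∃ p2 : ZMod L,
      |co P1 * co p1 + co P2 * co p2 - ε| ≤ M ∧ |si P1 * si p1 + si P2 * si p2| ≤ M).card : ℝ) ≤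
      ((Finset.univ.filter fun j : ZMod L => |co j - u1| ≤ r).card : ℝ) +
      ((Finset.univ.filter fun j : ZMod L => |co j - u2| ≤ r).card : ℝ) := by
    have := (Finset.card_le_card hsub).trans (Finset.card_union_le _ _)
    exact_mod_cast this
  have h4 : 8 * L * (r / Real.sqrt (max |(|u1| - 1)| r)) ≤
      8 * L * (101 / κ ^ 2 * (Real.sqrt M + M / σ)) := by gcongr
  have h5 : 8 * L * (r / Real.sqrt (max |(|u2| - 1)| r)) ≤
      8 * L * (101 / κ ^ 2 * (Real.sqrt M + M / σ)) := by gcongr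
  linarith

/-- the signed distances of the two shells -/
noncomputable def xm (E : ℝ) (P1 P2 p1 p2 : ZMod L) : ℝ := a (p1 - P1) + a (p2 - P2) - E

noncomputable def xp (E : ℝ) (P1 P2 p1 p2 : ZMod L) : ℝ := a (p1 + P1) + a (p2 + P2) - E

/-- the smallest distance over the second momentum -/
noncomputable def mS (E : ℝ) (P1 P2 p1 : ZMod L) : ℝ :=
  Finset.univ.inf' Finset.univ_nonempty
    fun p2 : ZMod L => max |xm E P1 P2 p1 p2| |xp E P1 P2 p1 p2|

theorem mS_le (E : ℝ) (P1 P2 p1 p2 : ZMod L) :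
    mS E P1 P2 p1 ≤ max |xm E P1 P2 p1 p2| |xp E P1 P2 p1 p2| :=
  Finset.inf'_le _ (Finset.mem_univ p2)

theorem mcount (κ : ℝ) (hκ : 0 < κ) (hκ1 : κ ≤ 1) (P1 P2 : ZMod L) (E σ r : ℝ)
    (hE : κ ≤ |E|) (hE2 : |E| ≤ 4 - κ) (hσ : 0 < σ) (hs1 : |si P1| ≤ σ)
    (hs2 : |si P2| ≤ σ) (hm : σ = |si P1| ∨ σ = |si P2|) (hr : 0 < r)
    (hL : 1 / (L : ℝ) ≤ (r / 2) ^ 2) :
    ((Finset.univ.filter fun p1 : ZMod L => mS E P1 P2 p1 ≤ r).card : ℝ) ≤
      1616 / κ ^ 2 * (Real.sqrt r + r / σ) * L := by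
  classical
  have hL0 : (0 : ℝ) < L := by exact_mod_cast Nat.pos_of_ne_zero (NeZero.ne L)
  rcases le_or_gt r (κ / 4) with h1 | h1
  · have h2 := projcnt (L := L) κ hκ hκ1 P1 P2 (E / 2) σ (r / 2)
      (by rw [abs_div, abs_of_pos (by norm_num : (0 : ℝ) < 2)]; linarith)
      (by rw [abs_div, abs_of_pos (by norm_num : (0 : ℝ) < 2)]; linarith)
      hσ hs1 hs2 hm (by linarith) (by linarith) hL
    have hsub : (Finset.univ.filter fun p1 : ZMod L => mS E P1 P2 p1 ≤ r) ⊆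
        Finset.univ.filter fun p1 : ZMod L => ∃ p2 : ZMod L,
          |co P1 * co p1 + co P2 * co p2 - E / 2| ≤ r / 2 ∧
          |si P1 * si p1 + si P2 * si p2| ≤ r / 2 := by
      intro p1 hp1
      have h3 := (Finset.mem_filter.1 hp1).2
      unfold mS at h3
      rw [Finset.inf'_le_iff] at h3
      obtain ⟨p2, _, h4⟩ := h3
      refine Finset.mem_filter.2 ⟨Finset.mem_univ _, p2, ?_, ?_⟩
      · have e1 : co P1 * co p1 + co P2 * co p2 - E / 2 =
            (xm E P1 P2 p1 p2 + xp E P1 P2 p1 p2) / 4 := by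
          unfold xm xp
          rw [a_co, a_co, a_co, a_co, co_sub, co_sub, co_add, co_add]
          ring
        rw [e1, abs_div, abs_of_pos (by norm_num : (0 : ℝ) < 4)]
        have e2 := abs_add_le (xm E P1 P2 p1 p2) (xp E P1 P2 p1 p2)
        have e3 := (le_max_left _ _).trans h4
        have e4 := (le_max_right _ _).trans h4
        linarith
      · have e1 : si P1 * si p1 + si P2 * si p2 =
            (xm E P1 P2 p1 p2 - xp E P1 P2 p1 p2) / 4 := by
          unfold xm xp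
          rw [a_co, a_co, a_co, a_co, co_sub, co_sub, co_add, co_add]
          ring
        rw [e1, abs_div, abs_of_pos (by norm_num : (0 : ℝ) < 4)]
        have e2 := abs_sub (xm E P1 P2 p1 p2) (xp E P1 P2 p1 p2)
        have e3 := (le_max_left _ _).trans h4
        have e4 := (le_max_right _ _).trans h4
        linarith
    have h5 : ((Finset.univ.filter fun p1 : ZMod L => mS E P1 P2 p1 ≤ r).card : ℝ) ≤
        ((Finset.univ.filter fun p1 : ZMod L => ∃ p2 : ZMod L,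
          |co P1 * co p1 + co P2 * co p2 - E / 2| ≤ r / 2 ∧
          |si P1 * si p1 + si P2 * si p2| ≤ r / 2).card : ℝ) := by
      exact_mod_cast Finset.card_le_card hsub
    refine h5.trans (h2.trans ?_)
    have e1 : Real.sqrt (r / 2) ≤ Real.sqrt r := Real.sqrt_le_sqrt (by linarith)
    have e2 : r / 2 / σ ≤ r / σ := by
      apply div_le_div_of_nonneg_right _ hσ.le
      linarith
    calc 16 * L * (101 / κ ^ 2 * (Real.sqrt (r / 2) + r / 2 / σ)) ≤
          16 * L * (101 / κ ^ 2 * (Real.sqrt r + r / σ)) := by gcongr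
      _ = _ := by ring
  · have e3 : ((Finset.univ.filter fun p1 : ZMod L => mS E P1 P2 p1 ≤ r).card : ℝ) ≤ L := by
      have := Finset.card_filter_le (Finset.univ : Finset (ZMod L)) fun p1 => mS E P1 P2 p1 ≤ r
      rw [Finset.card_univ, ZMod.card] at this
      exact_mod_cast this
    have e4 : κ / 2 ≤ Real.sqrt r := by
      apply Real.le_sqrt_of_sq_le
      nlinarith
    have e5 : 0 ≤ r / σ := by positivity
    have e6 : 1 ≤ 1616 / κ ^ 2 * (Real.sqrt r + r / σ) := by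
      calc (1 : ℝ) ≤ 1616 / κ ^ 2 * (κ / 2) := by
            rw [div_mul_div_comm, le_div_iff₀ (by positivity)]
            nlinarith
        _ ≤ _ := by
            have : κ / 2 ≤ Real.sqrt r + r / σ := by linarith
            gcongr
    calc _ ≤ 1 * (L : ℝ) := by linarith
      _ ≤ _ := by gcongr

/-- the sum over the first momentum -/
theorem msum (κ : ℝ) (hκ : 0 < κ) (hκ1 : κ ≤ 1) (P1 P2 : ZMod L) (E σ δ : ℝ)
    (hE : κ ≤ |E|) (hE2 : |E| ≤ 4 - κ) (hσ : 0 < σ) (hs1 : |si P1| ≤ σ)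
    (hs2 : |si P2| ≤ σ) (hm : σ = |si P1| ∨ σ = |si P2|) (hδ : 0 < δ) (hδ1 : δ ≤ 1 / 2)
    (hL : 1 / (L : ℝ) ≤ (δ / 2) ^ 2) :
    ∑ p1 : ZMod L, (max (mS E P1 P2 p1) δ)⁻¹ ≤
      9700 / κ ^ 2 * Real.log (1 / δ) * ((Real.sqrt δ)⁻¹ + σ⁻¹) * L := by
  classical
  have hL0 : (0 : ℝ) < L := by exact_mod_cast Nat.pos_of_ne_zero (NeZero.ne L)
  obtain ⟨n, hn1, hn2⟩ := exists_nat_pow_near_of_lt_one hδ (by linarith : δ ≤ 1)
    (by norm_num : (0 : ℝ) < 1 / 2) (by norm_num : (1 / 2 : ℝ) < 1)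
  obtain ⟨l, hl⟩ : ∃ l, l = Real.log (1 / δ) := ⟨_, rfl⟩
  rw [← hl]
  have hl2 : (0.69 : ℝ) < Real.log 2 := by
    have := Real.log_two_gt_d9
    linarith
  have hll : Real.log 2 ≤ l := by
    rw [hl]
    apply Real.log_le_log (by norm_num)
    rw [le_div_iff₀ hδ]
    linarith
  have hn3 : (n : ℝ) * Real.log 2 ≤ l := by
    have h2 : (2 : ℝ) ^ n ≤ 1 / δ := by
      rw [le_div_iff₀ hδ]
      have h3 : (2 : ℝ) ^ n * (1 / 2) ^ n = 1 := by
        rw [← mul_pow]
        norm_num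
      calc (2 : ℝ) ^ n * δ ≤ 2 ^ n * (1 / 2) ^ n := by gcongr
        _ = 1 := h3
    have h4 := Real.log_le_log (by positivity) h2
    rwa [Real.log_pow, ← hl] at h4
  have hn4 : (n : ℝ) + 1 ≤ 3 * l := by
    have : (0 : ℝ) ≤ n := Nat.cast_nonneg n
    nlinarith
  obtain ⟨Y, hY⟩ : ∃ Y, Y = (Real.sqrt δ)⁻¹ + σ⁻¹ := ⟨_, rfl⟩
  rw [← hY]
  have hsδ : 0 < Real.sqrt δ := Real.sqrt_pos.2 hδ
  have hY1 : 1 ≤ Y := by
    rw [hY]
    have e1 : 1 ≤ (Real.sqrt δ)⁻¹ := by
      rw [one_le_inv₀ hsδ]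
      exact Real.sqrt_le_one.2 (by linarith)
    have e2 : 0 ≤ σ⁻¹ := by positivity
    linarith
  have hκ2 : κ ^ 2 ≤ 1 := pow_le_one₀ hκ.le hκ1
  calc ∑ p1 : ZMod L, (max (mS E P1 P2 p1) δ)⁻¹ ≤
        ∑ p1 : ZMod L, (1 + ∑ i ∈ Finset.range (n + 1), (2 : ℝ) ^ (i + 1) *
          (if mS E P1 P2 p1 ≤ (1 / 2 : ℝ) ^ i then 1 else 0)) := by
        refine Finset.sum_le_sum fun p1 _ => ?_
        have h1 := dy_point (mS E P1 P2 p1) δ 1 hδ (by norm_num) n hn1
        rw [Real.rpow_neg_one] at h1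
        refine h1.trans (le_of_eq ?_)
        congr 1
        refine Finset.sum_congr rfl fun i _ => ?_
        rw [one_mul, ← Nat.cast_succ, Real.rpow_natCast]
    _ = (L : ℝ) + ∑ i ∈ Finset.range (n + 1), (2 : ℝ) ^ (i + 1) *
        ((Finset.univ.filter fun p1 : ZMod L => mS E P1 P2 p1 ≤ (1 / 2 : ℝ) ^ i).card : ℝ) := by
        rw [Finset.sum_add_distrib, Finset.sum_comm]
        congr 1
        · simp
        · refine Finset.sum_congr rfl fun i _ => ?_
          rw [← Finset.mul_sum, Finset.sum_boole]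
    _ ≤ (L : ℝ) + ∑ i ∈ Finset.range (n + 1), 3232 / κ ^ 2 * Y * L := by
        refine add_le_add le_rfl (Finset.sum_le_sum fun i hi => ?_)
        have hi' : i ≤ n := by have := Finset.mem_range.1 hi; omega
        have hr0 : (0 : ℝ) < (1 / 2 : ℝ) ^ i := by positivity
        have hδi : δ ≤ (1 / 2 : ℝ) ^ i :=
          hn2.trans (pow_le_pow_of_le_one (by norm_num) (by norm_num) hi')
        have h1 := mcount (L := L) κ hκ hκ1 P1 P2 E σ ((1 / 2 : ℝ) ^ i) hE hE2 hσ hs1 hs2 hm hr0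
          (hL.trans (by gcongr))
        have h2 : (2 : ℝ) ^ i * (1 / 2) ^ i = 1 := by
          rw [← mul_pow]
          norm_num
        have h3 : (2 : ℝ) ^ i * Real.sqrt ((1 / 2 : ℝ) ^ i) ≤ (Real.sqrt δ)⁻¹ := by
          have e1 : Real.sqrt δ ≤ Real.sqrt ((1 / 2 : ℝ) ^ i) := Real.sqrt_le_sqrt hδi
          rw [le_inv_comm₀ (by positivity) hsδ]
          refine e1.trans (le_of_eq (eq_inv_of_mul_eq_one_left ?_))
          calc Real.sqrt ((1 / 2 : ℝ) ^ i) * (2 ^ i * Real.sqrt ((1 / 2 : ℝ) ^ i)) =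
              2 ^ i * (Real.sqrt ((1 / 2 : ℝ) ^ i) * Real.sqrt ((1 / 2 : ℝ) ^ i)) := by ring
            _ = 1 := by rw [Real.mul_self_sqrt hr0.le, h2]
        have h4 : (2 : ℝ) ^ i * ((1 / 2 : ℝ) ^ i / σ) = σ⁻¹ := by
          rw [← mul_div_assoc, h2, one_div]
        calc (2 : ℝ) ^ (i + 1) * ((Finset.univ.filter fun p1 : ZMod L =>
              mS E P1 P2 p1 ≤ (1 / 2 : ℝ) ^ i).card : ℝ) ≤
            2 ^ (i + 1) * (1616 / κ ^ 2 * (Real.sqrt ((1 / 2 : ℝ) ^ i) +
              (1 / 2 : ℝ) ^ i / σ) * L) := by gcongr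
          _ = 3232 / κ ^ 2 * (2 ^ i * Real.sqrt ((1 / 2 : ℝ) ^ i) +
              2 ^ i * ((1 / 2 : ℝ) ^ i / σ)) * L := by
              rw [pow_succ]
              ring
          _ ≤ 3232 / κ ^ 2 * Y * L := by
              rw [h4, hY]
              gcongr
    _ = (L : ℝ) + ((n : ℝ) + 1) * (3232 / κ ^ 2 * Y * L) := by
        rw [Finset.sum_const, Finset.card_range, nsmul_eq_mul]
        push_cast
        ring
    _ ≤ 4 / κ ^ 2 * l * Y * L + 3 * l * (3232 / κ ^ 2 * Y * L) := by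
        have e1 : (1 : ℝ) ≤ 4 / κ ^ 2 * l * Y := by
          have e2 : 1 ≤ 4 / κ ^ 2 * l := by
            rw [div_mul_eq_mul_div, le_div_iff₀ (by positivity)]
            linarith
          nlinarith
        have e3 : (L : ℝ) ≤ 4 / κ ^ 2 * l * Y * L := by nlinarith
        have e4 : 0 ≤ 3232 / κ ^ 2 * Y * L := by positivity
        have e5 : ((n : ℝ) + 1) * (3232 / κ ^ 2 * Y * L) ≤ 3 * l * (3232 / κ ^ 2 * Y * L) := by
          gcongr
        linarith
    _ = 9700 / κ ^ 2 * l * Y * L := by ring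

/-- the sum over the second momentum -/
theorem fsum (κ : ℝ) (hκ : 0 < κ) (hκ1 : κ ≤ 1) (P : ZMod L) (t δ : ℝ) (ht : κ / 4 ≤ mm t)
    (hδ : 0 < δ) (hδ1 : δ ≤ 1 / 2) (hL : 1 / (L : ℝ) ≤ δ) :
    ∑ p : ZMod L, (max |a (p - P) - t| δ)⁻¹ ≤ 66 / κ * Real.log (1 / δ) * L := by
  classical
  have hL0 : (0 : ℝ) < L := by exact_mod_cast Nat.pos_of_ne_zero (NeZero.ne L)
  have h1 : ∑ p : ZMod L, (max |a (p - P) - t| δ)⁻¹ = ∑ p : ZMod L, (max |a p - t| δ)⁻¹ :=
    (Equiv.subRight P).sum_comp fun p => (max |a p - t| δ)⁻¹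
  rw [h1]
  have hs : 0 < Real.sqrt κ := Real.sqrt_pos.2 hκ
  have h2 := dy_log (fun p : ZMod L => |a p - t|) δ (8 / κ) L hδ hδ1 (by positivity)
    (by rw [ZMod.card]) (fun r hr hr1 => by
      have hr0 : 0 < r := lt_of_lt_of_le hδ hr
      refine (count1 (L := L) t r (hL.trans hr) (by linarith)).trans ?_
      have e1 : κ / 2 ≤ Real.sqrt (max (mm t) r) := by
        apply Real.le_sqrt_of_sq_le
        refine le_trans ?_ (le_max_left _ _)
        nlinarith
      calc 4 * L * (r / Real.sqrt (max (mm t) r)) ≤ 4 * L * (r / (κ / 2)) := by gcongr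
        _ = 8 / κ * r * L := by
            field_simp
            norm_num)
  refine h2.trans ?_
  have hl : 0 ≤ Real.log (1 / δ) := by
    apply Real.log_nonneg
    rw [le_div_iff₀ hδ]
    linarith
  have e1 : 2 + 8 * (8 / κ) ≤ 66 / κ := by
    rw [← sub_nonneg]
    have : 66 / κ - (2 + 8 * (8 / κ)) = 2 * (1 / κ - 1) := by ring
    rw [this]
    have : 1 ≤ 1 / κ := by
      rw [le_div_iff₀ hκ]
      linarith
    linarith
  calc (L : ℝ) * ((2 + 8 * (8 / κ)) * Real.log (1 / δ)) ≤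
        L * (66 / κ * Real.log (1 / δ)) := by gcongr
    _ = _ := by ring

end Pool.Agent.TH311.AN2
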