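import Pool.Agent.TH311.AN2.Alg

/-! Two energy shells in dimension two: the projection to one momentum. -/

set_option autoImplicit false

namespace Pool.Agent.TH311.AN2

/-- lower bound of the discriminant -/
theorem disc_ge (s1 s2 ε κ σ : ℝ) (hκ : 0 < κ) (hκ1 : κ ≤ 1) (hε : κ / 2 ≤ |ε|)
    (h1 : |s1| ≤ σ) (h2 : |s2| ≤ σ) (hm : σ = |s1| ∨ σ = |s2|) :
    (κ * σ ^ 2 / 3) ^ 2 ≤ ε ^ 2 * s1 ^ 2 * s2 ^ 2 + (s2 ^ 2 - s1 ^ 2) ^ 2 := by
  have hσ : 0 ≤ σ := (abs_nonneg s1).trans h1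
  have hx : s1 ^ 2 ≤ σ ^ 2 := by
    rw [← sq_abs s1]
    exact pow_le_pow_left₀ (abs_nonneg _) h1 2
  have hy : s2 ^ 2 ≤ σ ^ 2 := by
    rw [← sq_abs s2]
    exact pow_le_pow_left₀ (abs_nonneg _) h2 2
  have hm2 : s1 ^ 2 = σ ^ 2 ∨ s2 ^ 2 = σ ^ 2 := by
    rcases hm with h | h
    · left
      rw [h, sq_abs]
    · right
      rw [h, sq_abs]
  have hε2 : κ ^ 2 / 4 ≤ ε ^ 2 := by
    rw [← sq_abs ε]
    have := pow_le_pow_left₀ (by positivity) hε 2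
    nlinarith
  have hκ2 : κ ^ 2 ≤ 1 := pow_le_one₀ hκ.le hκ1
  have main : ∀ x S : ℝ, 0 ≤ x → x ≤ S → κ ^ 2 * S ^ 2 / 9 ≤ ε ^ 2 * (x * S) + (S - x) ^ 2 := by
    intro x S hx0 hxS
    have hS : 0 ≤ S := hx0.trans hxS
    rcases le_total x (S / 2) with h | h
    · have e1 : S ^ 2 / 4 ≤ (S - x) ^ 2 := by nlinarith
      have e2 : κ ^ 2 * S ^ 2 ≤ 1 * S ^ 2 := by gcongr
      have e3 : 0 ≤ ε ^ 2 * (x * S) := by positivity
      nlinarith [sq_nonneg S]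
    · have e1 : S / 2 * S ≤ x * S := by gcongr
      have e2 : κ ^ 2 / 4 * (S / 2 * S) ≤ ε ^ 2 * (x * S) := by gcongr
      nlinarith [sq_nonneg (S - x), sq_nonneg (κ * S)]
  have e0 : (κ * σ ^ 2 / 3) ^ 2 = κ ^ 2 * (σ ^ 2) ^ 2 / 9 := by ring
  rw [e0]
  rcases hm2 with h | h
  · have := main (s2 ^ 2) (σ ^ 2) (sq_nonneg _) hy
    rw [h]
    nlinarith
  · have := main (s1 ^ 2) (σ ^ 2) (sq_nonneg _) hx
    rw [h]
    nlinarith

/-- `r / √(max ρ r) ≤ √r` -/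
theorem div_sqrt_max (ρ r : ℝ) (hr : 0 < r) : r / Real.sqrt (max ρ r) ≤ Real.sqrt r := by
  have h1 : Real.sqrt r ≤ Real.sqrt (max ρ r) := Real.sqrt_le_sqrt (le_max_right _ _)
  have h2 : 0 < Real.sqrt r := Real.sqrt_pos.2 hr
  rw [div_le_iff₀ (lt_of_lt_of_le h2 h1)]
  calc r = Real.sqrt r * Real.sqrt r := (Real.mul_self_sqrt hr.le).symm
    _ ≤ Real.sqrt r * Real.sqrt (max ρ r) := by gcongr

/-- the roots are transversal or far from `±1` -/
theorem root_far (κ : ℝ) (hκ : 0 < κ) (hκ1 : κ ≤ 1) (c1 s1 c2 s2 ε σ : ℝ)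
    (h1 : c1 ^ 2 + s1 ^ 2 = 1) (h2 : c2 ^ 2 + s2 ^ 2 = 1)
    (hε : κ / 2 ≤ |ε|) (hε2 : |ε| ≤ 2 - κ / 2) (hσ : 0 < σ) (hs1 : |s1| ≤ σ) (hs2 : |s2| ≤ σ)
    (hσ1 : σ ^ 2 < κ ^ 2 / 64) (w : ℝ)
    (hw : (s2 ^ 2 - s1 ^ 2) * w ^ 2 - 2 * (ε * s2 ^ 2 * c1) * w +
      (s2 ^ 2 * ε ^ 2 + c2 ^ 2 * s1 ^ 2 - s2 ^ 2 * c2 ^ 2) = 0) :
    s2 ^ 2 * κ ^ 2 ≤ 112 * |(|w| - 1)| * σ ^ 2 := by
  obtain ⟨ρ, hρ⟩ : ∃ ρ, ρ = |(|w| - 1)| := ⟨_, rfl⟩
  rw [← hρ]
  have hρ0 : 0 ≤ ρ := by rw [hρ]; exact abs_nonneg _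
  have hx : s1 ^ 2 ≤ σ ^ 2 := by
    rw [← sq_abs s1]
    exact pow_le_pow_left₀ (abs_nonneg _) hs1 2
  have hy : s2 ^ 2 ≤ σ ^ 2 := by
    rw [← sq_abs s2]
    exact pow_le_pow_left₀ (abs_nonneg _) hs2 2
  have hκ2 : κ ^ 2 ≤ 1 := pow_le_one₀ hκ.le hκ1
  rcases le_or_gt ρ 1 with hρ1 | hρ1
  · obtain ⟨e, he2, hew⟩ : ∃ e : ℝ, e ^ 2 = 1 ∧ |e - w| = ρ := by
      rcases le_total 0 w with h | h
      · refine ⟨1, by norm_num, ?_⟩
        rw [hρ, abs_of_nonneg h, abs_sub_comm]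
      · refine ⟨-1, by norm_num, ?_⟩
        rw [hρ, abs_of_nonpos h]
        congr 1
        ring
    have he1 : |e| = 1 := by
      have : |e| ^ 2 = 1 := by rw [sq_abs, he2]
      exact (pow_eq_one_iff_of_nonneg (abs_nonneg e) two_ne_zero).1 this
    have hA : |s2 ^ 2 - s1 ^ 2| ≤ σ ^ 2 := by
      rw [abs_le]
      constructor <;> linarith only [sq_nonneg s1, sq_nonneg s2, hx, hy]
    have hc1a : |c1| ≤ 1 := by
      rw [← sq_le_one_iff_abs_le_one]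
      linarith only [h1, sq_nonneg s1]
    have hc1b : 1 - σ ^ 2 ≤ |c1| := by
      have e1 : c1 ^ 2 ≤ |c1| := by
        rw [← sq_abs]
        nlinarith only [abs_nonneg c1, hc1a]
      linarith only [e1, h1, hx]
    have hεle : |ε| ≤ 2 := by linarith
    have hB : |ε * s2 ^ 2 * c1| ≤ 2 * σ ^ 2 := by
      rw [abs_mul, abs_mul, abs_of_nonneg (sq_nonneg s2)]
      calc |ε| * s2 ^ 2 * |c1| ≤ 2 * σ ^ 2 * 1 := by gcongr
        _ = _ := by ring
    have hRe : s2 ^ 2 * ((ε - e * c1) ^ 2 - c2 ^ 2) =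
        (e - w) * ((s2 ^ 2 - s1 ^ 2) * (e + w) - 2 * (ε * s2 ^ 2 * c1)) := by
      have e1 : (s2 ^ 2 - s1 ^ 2) * e ^ 2 - 2 * (ε * s2 ^ 2 * c1) * e +
          (s2 ^ 2 * ε ^ 2 + c2 ^ 2 * s1 ^ 2 - s2 ^ 2 * c2 ^ 2) =
          s2 ^ 2 * ((ε - e * c1) ^ 2 - c2 ^ 2) := by
        have hs1' : s1 ^ 2 = 1 - c1 ^ 2 := by linarith
        have hc2' : c2 ^ 2 = 1 - s2 ^ 2 := by linarith
        have e3 : (ε - e * c1) ^ 2 = ε ^ 2 - 2 * ε * e * c1 + e ^ 2 * c1 ^ 2 := by ring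
        rw [e3, he2, hs1', hc2']
        ring
      linear_combination hw - e1
    have hew2 : |e + w| ≤ 3 := by
      have e1 : e + w = 2 * e - (e - w) := by ring
      rw [e1]
      refine (abs_sub _ _).trans ?_
      rw [abs_mul, he1, hew, abs_of_pos (by norm_num : (0 : ℝ) < 2)]
      linarith
    have hup : |s2 ^ 2 * ((ε - e * c1) ^ 2 - c2 ^ 2)| ≤ ρ * (7 * σ ^ 2) := by
      rw [hRe, abs_mul, hew]
      apply mul_le_mul_of_nonneg_left _ hρ0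
      refine (abs_sub _ _).trans ?_
      rw [abs_mul, abs_mul 2 (ε * s2 ^ 2 * c1), abs_of_pos (by norm_num : (0 : ℝ) < 2)]
      have e1 : |s2 ^ 2 - s1 ^ 2| * |e + w| ≤ σ ^ 2 * 3 := by gcongr
      linarith
    have hlow : κ ^ 2 / 16 ≤ |(ε - e * c1) ^ 2 - c2 ^ 2| := by
      have e1 : (ε - e * c1) ^ 2 - c2 ^ 2 = ε * (ε - 2 * (e * c1)) + (s2 ^ 2 - s1 ^ 2) := by
        have hs1' : s1 ^ 2 = 1 - c1 ^ 2 := by linarith
        have hs2' : s2 ^ 2 = 1 - c2 ^ 2 := by linarith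
        have e3 : (ε - e * c1) ^ 2 = ε ^ 2 - 2 * ε * e * c1 + e ^ 2 * c1 ^ 2 := by ring
        rw [e3, he2, hs1', hs2']
        ring
      have e2 : κ / 2 - 2 * σ ^ 2 ≤ |ε - 2 * (e * c1)| := by
        have e3 : |2 * (e * c1)| - |ε| ≤ |ε - 2 * (e * c1)| := by
          rw [abs_sub_comm]
          exact abs_sub_abs_le_abs_sub _ _
        rw [abs_mul, abs_mul, he1, abs_of_pos (by norm_num : (0 : ℝ) < 2), one_mul] at e3
        linarith
      have e3 : κ / 2 * (κ / 2 - 2 * σ ^ 2) ≤ |ε * (ε - 2 * (e * c1))| := by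
        rw [abs_mul]
        have e4 : 0 ≤ κ / 2 - 2 * σ ^ 2 := by nlinarith only [hσ1, hκ, hκ1]
        gcongr
      have e4 : |ε * (ε - 2 * (e * c1))| - |s2 ^ 2 - s1 ^ 2| ≤
          |ε * (ε - 2 * (e * c1)) + (s2 ^ 2 - s1 ^ 2)| := by
        have := abs_sub_abs_le_abs_sub (ε * (ε - 2 * (e * c1))) (-(s2 ^ 2 - s1 ^ 2))
        rw [abs_neg, sub_neg_eq_add] at this
        exact this
      rw [e1]
      have e5 : κ * σ ^ 2 ≤ 1 * σ ^ 2 := by gcongr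
      linarith only [e3, e4, hA, e5, hσ1, sq_nonneg κ]
    rw [abs_mul, abs_of_nonneg (sq_nonneg s2)] at hup
    have : s2 ^ 2 * (κ ^ 2 / 16) ≤ s2 ^ 2 * |(ε - e * c1) ^ 2 - c2 ^ 2| := by gcongr
    linarith only [this, hup]
  · calc s2 ^ 2 * κ ^ 2 ≤ σ ^ 2 * 1 := by gcongr
      _ ≤ 112 * ρ * σ ^ 2 := by nlinarith only [sq_nonneg σ, hρ1]

/-- **the projection of the intersection of two shells to the first momentum** -/
theorem geo (κ : ℝ) (hκ : 0 < κ) (hκ1 : κ ≤ 1) (c1 s1 c2 s2 ε σ M : ℝ)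
    (h1 : c1 ^ 2 + s1 ^ 2 = 1) (h2 : c2 ^ 2 + s2 ^ 2 = 1)
    (hε : κ / 2 ≤ |ε|) (hε2 : |ε| ≤ 2 - κ / 2) (hσ : 0 < σ) (hs1 : |s1| ≤ σ) (hs2 : |s2| ≤ σ)
    (hm : σ = |s1| ∨ σ = |s2|) (hM : 0 < M) (hM1 : M ≤ κ / 8) :
    ∃ u1 u2 r : ℝ, M ^ 2 ≤ r ∧
      r / Real.sqrt (max |(|u1| - 1)| r) ≤ 101 / κ ^ 2 * (Real.sqrt M + M / σ) ∧
      r / Real.sqrt (max |(|u2| - 1)| r) ≤ 101 / κ ^ 2 * (Real.sqrt M + M / σ) ∧
      ∀ u v u' v' : ℝ, u ^ 2 + v ^ 2 = 1 → u' ^ 2 + v' ^ 2 = 1 →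
        |c1 * u + c2 * u' - ε| ≤ M → |s1 * v + s2 * v'| ≤ M → |u - u1| ≤ r ∨ |u - u2| ≤ r := by
  have hκ2 : κ ^ 2 ≤ 1 := pow_le_one₀ hκ.le hκ1
  have hM2 : M ≤ 1 := by linarith
  have hMM : M ^ 2 ≤ M := by nlinarith only [hM, hM2]
  have hsM : 0 < Real.sqrt M := Real.sqrt_pos.2 hM
  have hX0 : 0 ≤ 101 / κ ^ 2 * (M / σ) := by positivity
  have hs1' : |s1| ≤ 1 := by
    rw [← sq_le_one_iff_abs_le_one]
    linarith only [h1, sq_nonneg c1]
  have hs2' : |s2| ≤ 1 := by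
    rw [← sq_le_one_iff_abs_le_one]
    linarith only [h2, sq_nonneg c2]
  have hσ1 : σ ≤ 1 := by rcases hm with h | h <;> rw [h] <;> assumption
  have hfin : ∀ r : ℝ, 0 < r → r ≤ 784 / κ ^ 4 * M → ∀ ρ : ℝ,
      r / Real.sqrt (max ρ r) ≤ 101 / κ ^ 2 * (Real.sqrt M + M / σ) := by
    intro r hr hr2 ρ
    refine (div_sqrt_max ρ r hr).trans ?_
    have e1 : Real.sqrt r ≤ 28 / κ ^ 2 * Real.sqrt M := by
      rw [Real.sqrt_le_left (by positivity), mul_pow, Real.sq_sqrt hM.le, div_pow]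
      refine hr2.trans (le_of_eq ?_)
      ring
    have e2 : 28 / κ ^ 2 * Real.sqrt M ≤ 101 / κ ^ 2 * Real.sqrt M := by
      gcongr
      norm_num
    rw [mul_add]
    linarith
  rcases le_or_gt |c2| M with hc2 | hc2
  · -- `c2` small
    have hr : M ^ 2 ≤ 8 * M / κ := by
      rw [le_div_iff₀ hκ]
      calc M ^ 2 * κ ≤ M ^ 2 * 1 := by gcongr
        _ ≤ 8 * M := by linarith only [hMM, hM]
    have hr2 : 8 * M / κ ≤ 784 / κ ^ 4 * M := by
      rw [div_mul_eq_mul_div, div_le_div_iff₀ hκ (by positivity)]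
      have e1 : κ ^ 3 ≤ 1 := pow_le_one₀ hκ.le hκ1
      have e2 : κ ^ 3 * (κ * M) ≤ 1 * (κ * M) := by gcongr
      linarith only [e2, mul_pos hκ hM]
    have hr0 : 0 < 8 * M / κ := by positivity
    have key : ∀ u v u' v' : ℝ, u ^ 2 + v ^ 2 = 1 → u' ^ 2 + v' ^ 2 = 1 →
        |c1 * u + c2 * u' - ε| ≤ M → |c1 * u - ε| ≤ 2 * M ∧ κ / 4 ≤ |c1| := by
      intro u v u' v' hu hu' ha
      have hu1 : |u| ≤ 1 := by
        rw [← sq_le_one_iff_abs_le_one]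
        linarith only [hu, sq_nonneg v]
      have hu'1 : |u'| ≤ 1 := by
        rw [← sq_le_one_iff_abs_le_one]
        linarith only [hu', sq_nonneg v']
      have e1 : |c2 * u'| ≤ M := by
        rw [abs_mul]
        calc |c2| * |u'| ≤ M * 1 := by gcongr
          _ = M := by ring
      have e2 : |c1 * u - ε| ≤ 2 * M := by
        have : c1 * u - ε = (c1 * u + c2 * u' - ε) - c2 * u' := by ring
        rw [this]
        refine (abs_sub _ _).trans ?_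
        linarith
      refine ⟨e2, ?_⟩
      have e3 : |c1 * u| ≤ |c1| := by
        rw [abs_mul]
        calc |c1| * |u| ≤ |c1| * 1 := by gcongr
          _ = _ := by ring
      have e4 : |ε| - |c1 * u| ≤ |c1 * u - ε| := by
        rw [abs_sub_comm]
        exact abs_sub_abs_le_abs_sub _ _
      linarith
    refine ⟨ε / c1, ε / c1, 8 * M / κ, hr, hfin _ hr0 hr2 _, hfin _ hr0 hr2 _, ?_⟩
    intro u v u' v' hu hu' ha _
    left
    obtain ⟨k1, k2⟩ := key u v u' v' hu hu' ha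
    have hc1 : 0 < |c1| := by linarith
    have hc1' : c1 ≠ 0 := abs_pos.1 hc1
    have e1 : u - ε / c1 = (c1 * u - ε) / c1 := by
      field_simp
    rw [e1, abs_div, div_le_div_iff₀ hc1 hκ]
    calc |c1 * u - ε| * κ ≤ 2 * M * κ := by gcongr
      _ = 8 * M * (κ / 4) := by ring
      _ ≤ 8 * M * |c1| := by gcongr
  · -- `c2` not small
    have hc0 : 0 < |c2| := hM.trans hc2
    obtain ⟨D0, hD0⟩ : ∃ D0, D0 = Real.sqrt (ε ^ 2 * s1 ^ 2 * s2 ^ 2 + (s2 ^ 2 - s1 ^ 2) ^ 2) :=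
      ⟨_, rfl⟩
    have hdg := disc_ge s1 s2 ε κ σ hκ hκ1 hε hs1 hs2 hm
    have hD0g : κ * σ ^ 2 / 3 ≤ D0 := by
      rw [hD0]
      exact Real.le_sqrt_of_sq_le hdg
    have hD0p : 0 < D0 := lt_of_lt_of_le (by positivity) hD0g
    have hD0s : D0 ^ 2 = ε ^ 2 * s1 ^ 2 * s2 ^ 2 + (s2 ^ 2 - s1 ^ 2) ^ 2 := by
      rw [hD0, Real.sq_sqrt (by positivity)]
    have hDp : 0 < |c2| * D0 := by positivity
    obtain ⟨u1, u2, hu1, hu2, hroots⟩ := roots (s2 ^ 2 - s1 ^ 2) (ε * s2 ^ 2 * c1)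
      (s2 ^ 2 * ε ^ 2 + c2 ^ 2 * s1 ^ 2 - s2 ^ 2 * c2 ^ 2) (|c2| * D0) hDp (by
        rw [disc c1 s1 c2 s2 ε h1 h2, mul_pow, hD0s, sq_abs])
    have hDg : |c2| * (κ * σ ^ 2 / 3) ≤ |c2| * D0 := by gcongr
    rcases le_or_gt (κ ^ 2 / 64) (σ ^ 2) with hσ2 | hσ2
    · -- large transfer
      have hr0 : 0 < 768 * M / κ ^ 3 := by positivity
      have hr : M ^ 2 ≤ 768 * M / κ ^ 3 := by
        rw [le_div_iff₀ (by positivity)]
        have e1 : κ ^ 3 ≤ 1 := pow_le_one₀ hκ.le hκ1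
        calc M ^ 2 * κ ^ 3 ≤ M * 1 := by gcongr
          _ ≤ 768 * M := by linarith
      have hr2 : 768 * M / κ ^ 3 ≤ 784 / κ ^ 4 * M := by
        rw [div_mul_eq_mul_div, div_le_div_iff₀ (by positivity) (by positivity)]
        have e2 : κ ^ 3 * M * κ ≤ κ ^ 3 * M * 1 := by gcongr
        have e3 : 0 ≤ κ ^ 3 * M := by positivity
        linarith only [e2, e3]
      refine ⟨u1, u2, 768 * M / κ ^ 3, hr, hfin _ hr0 hr2 _, hfin _ hr0 hr2 _, ?_⟩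
      intro u v u' v' hu hu' ha hb
      have e1 := elim c1 s1 c2 s2 u v u' v' ε M h1 h2 hu hu' hM.le ha hb
      have e2 : (3 * M * |c2 * s2| + M ^ 2) / (|c2| * D0) ≤ 768 * M / κ ^ 3 := by
        rw [div_le_div_iff₀ hDp (by positivity), abs_mul]
        have e3 : 3 * M * (|c2| * |s2|) + M ^ 2 ≤ 4 * M * |c2| := by
          have e4 : 3 * M * (|c2| * |s2|) ≤ 3 * M * (|c2| * 1) := by gcongr
          have e5 : M ^ 2 ≤ M * |c2| := by
            rw [sq]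
            gcongr
          linarith
        have e6 : κ ^ 3 / 192 ≤ κ * σ ^ 2 / 3 := by
          have : κ * (κ ^ 2 / 64) ≤ κ * σ ^ 2 := by gcongr
          linarith only [this]
        calc (3 * M * (|c2| * |s2|) + M ^ 2) * κ ^ 3 ≤ 4 * M * |c2| * κ ^ 3 := by gcongr
          _ = 768 * M * (|c2| * (κ ^ 3 / 192)) := by ring
          _ ≤ 768 * M * (|c2| * D0) := by
              have : κ ^ 3 / 192 ≤ D0 := e6.trans hD0g
              gcongr
      rcases hroots u _ e1 with h | h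
      · exact Or.inl (h.trans e2)
      · exact Or.inr (h.trans e2)
    · -- small transfer
      obtain ⟨r1, hr1⟩ : ∃ r1, r1 = 9 * M * |s2| / (κ * σ ^ 2) := ⟨_, rfl⟩
      obtain ⟨r2, hr2⟩ : ∃ r2, r2 = 4 * M ^ 2 / (κ * σ ^ 2) := ⟨_, rfl⟩
      have hr10 : 0 ≤ r1 := by rw [hr1]; positivity
      have hr20 : 0 < r2 := by rw [hr2]; positivity
      have hκσ : κ * σ ^ 2 ≤ 1 := by
        calc κ * σ ^ 2 ≤ 1 * 1 ^ 2 := by gcongr
          _ = 1 := by norm_num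
      have hrM : M ^ 2 ≤ r1 + r2 := by
        have : M ^ 2 ≤ r2 := by
          rw [hr2, le_div_iff₀ (by positivity)]
          have e1 := mul_le_mul_of_nonneg_left hκσ (sq_nonneg M)
          linarith only [e1, sq_nonneg M]
        linarith
      have hr2s : Real.sqrt r2 ≤ 2 * (M / σ) / κ := by
        rw [Real.sqrt_le_left (by positivity), hr2, div_pow, mul_pow, div_pow, div_le_div_iff₀
          (by positivity) (by positivity)]
        have e1 : κ ^ 2 ≤ κ := by nlinarith only [hκ, hκ1]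
        have e2 : 2 ^ 2 * (M ^ 2 / σ ^ 2) * (κ * σ ^ 2) = 4 * M ^ 2 * κ := by
          field_simp
          norm_num
        rw [e2]
        gcongr
      have hroot : ∀ w : ℝ, s2 ^ 2 * κ ^ 2 ≤ 112 * |(|w| - 1)| * σ ^ 2 →
          (r1 + r2) / Real.sqrt (max |(|w| - 1)| (r1 + r2)) ≤
            101 / κ ^ 2 * (Real.sqrt M + M / σ) := by
        intro w hw
        obtain ⟨ρ, hρ⟩ : ∃ ρ, ρ = |(|w| - 1)| := ⟨_, rfl⟩
        rw [← hρ] at hw ⊢
        have hρ0 : 0 ≤ ρ := by rw [hρ]; exact abs_nonneg _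
        obtain ⟨m, hmdef⟩ : ∃ m, m = Real.sqrt (max ρ (r1 + r2)) := ⟨_, rfl⟩
        rw [← hmdef]
        have hm1 : Real.sqrt ρ ≤ m := by
          rw [hmdef]
          exact Real.sqrt_le_sqrt (le_max_left _ _)
        have hm2 : Real.sqrt r2 ≤ m := by
          rw [hmdef]
          exact Real.sqrt_le_sqrt (le_trans (by linarith) (le_max_right _ _))
        have hm0 : 0 < m := lt_of_lt_of_le (Real.sqrt_pos.2 hr20) hm2
        rw [div_le_iff₀ hm0]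
        have hs : |s2| * κ ≤ 11 * Real.sqrt ρ * σ := by
          have e1 : (|s2| * κ) ^ 2 ≤ (11 * Real.sqrt ρ * σ) ^ 2 := by
            rw [mul_pow, mul_pow, mul_pow, sq_abs, Real.sq_sqrt hρ0]
            have : 0 ≤ ρ * σ ^ 2 := by positivity
            linarith only [hw, this]
          exact (pow_le_pow_iff_left₀ (by positivity) (by positivity) two_ne_zero).1 e1
        have t1 : r1 ≤ 99 / κ ^ 2 * (M / σ) * m := by
          have e1 : r1 = 9 * (M / σ) / κ ^ 2 * (|s2| * κ / σ) := by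
            rw [hr1]
            field_simp
          have e2 : |s2| * κ / σ ≤ 11 * m := by
            rw [div_le_iff₀ hσ]
            calc |s2| * κ ≤ 11 * Real.sqrt ρ * σ := hs
              _ ≤ 11 * m * σ := by gcongr
          rw [e1]
          calc 9 * (M / σ) / κ ^ 2 * (|s2| * κ / σ) ≤ 9 * (M / σ) / κ ^ 2 * (11 * m) := by gcongr
            _ = _ := by ring
        have t2 : r2 ≤ 2 / κ ^ 2 * (M / σ) * m := by
          calc r2 = Real.sqrt r2 * Real.sqrt r2 := (Real.mul_self_sqrt hr20.le).symm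
            _ ≤ (2 * (M / σ) / κ) * m := by gcongr
            _ = 2 / κ * (M / σ) * m := by ring
            _ ≤ 2 / κ ^ 2 * (M / σ) * m := by
                have : κ ^ 2 ≤ κ := by nlinarith only [hκ, hκ1]
                gcongr
        have t3 : 0 ≤ 101 / κ ^ 2 * Real.sqrt M * m := by positivity
        calc r1 + r2 ≤ 99 / κ ^ 2 * (M / σ) * m + 2 / κ ^ 2 * (M / σ) * m := by linarith
          _ = 101 / κ ^ 2 * (M / σ) * m := by ring
          _ ≤ 101 / κ ^ 2 * Real.sqrt M * m + 101 / κ ^ 2 * (M / σ) * m := by linarith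
          _ = _ := by ring
      have hf1 := root_far κ hκ hκ1 c1 s1 c2 s2 ε σ h1 h2 hε hε2 hσ hs1 hs2 hσ2 u1 hu1
      have hf2 := root_far κ hκ hκ1 c1 s1 c2 s2 ε σ h1 h2 hε hε2 hσ hs1 hs2 hσ2 u2 hu2
      refine ⟨u1, u2, r1 + r2, hrM, hroot u1 hf1, hroot u2 hf2, ?_⟩
      intro u v u' v' hu hu' ha hb
      have e1 := elim c1 s1 c2 s2 u v u' v' ε M h1 h2 hu hu' hM.le ha hb
      have hc34 : 3 / 4 ≤ |c2| := by
        have e3 : s2 ^ 2 ≤ 1 / 64 := by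
          rw [← sq_abs s2]
          have := pow_le_pow_left₀ (abs_nonneg _) hs2 2
          linarith only [this, hσ2, hκ2]
        have e4 : c2 ^ 2 ≤ |c2| := by
          rw [← sq_abs]
          have e5 : |c2| ≤ 1 := by
            rw [← sq_le_one_iff_abs_le_one]
            linarith only [h2, sq_nonneg s2]
          nlinarith only [abs_nonneg c2, e5]
        linarith only [e3, e4, h2]
      have e2 : (3 * M * |c2 * s2| + M ^ 2) / (|c2| * D0) ≤ r1 + r2 := by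
        rw [div_le_iff₀ hDp, abs_mul]
        have e3 : (r1 + r2) * (|c2| * (κ * σ ^ 2 / 3)) =
            3 * M * (|c2| * |s2|) + 4 / 3 * |c2| * M ^ 2 := by
          rw [hr1, hr2]
          field_simp
          ring
        have e4 : M ^ 2 ≤ 4 / 3 * |c2| * M ^ 2 := by
          have e6 := mul_le_mul_of_nonneg_right hc34 (sq_nonneg M)
          linarith only [e6]
        have e5 : (r1 + r2) * (|c2| * (κ * σ ^ 2 / 3)) ≤ (r1 + r2) * (|c2| * D0) := by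
          have : 0 ≤ r1 + r2 := by linarith
          gcongr
        linarith
      rcases hroots u _ e1 with h | h
      · exact Or.inl (h.trans e2)
      · exact Or.inr (h.trans e2)

end Pool.Agent.TH311.AN2
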