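import Pool.Agent.TH311.AN2.Net2
import Pool.Agent.W788.BK.Lat

/-! From the torus to the lattice. -/

set_option autoImplicit false
set_option linter.unusedSectionVars false

open scoped BigOperators
open MeasureTheory

namespace Pool.Agent.TH311.AN2

open Pool.Agent.W788.BK
open Pool.Agent.W788.MFP.Four Pool.Agent.W788.MFP.Dos Pool.Agent.W788.MFP.Form
open Pool.Agent.W788.MFP.Ball Pool.Agent.W788.MFP.Crit Pool.Agent.W788.MFP.Cut
open Pool.Agent.W788.MFP.Site Pool.Agent.W788.MF2.Dom Pool.Agent.W788.MF2.FinG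
open Pool.Agent.W788.MF2.FormG Pool.Agent.W788.LD.Main Pool.Agent.H4R2
open Pool.Agent.H4R2.LO (Zd)
open Pool.Agent.H695R3.AN (lf lf_inj lf_add lf_sub)

variable {d L : ℕ} [NeZero L]

/-- local smoothing at one scale, for the energies of a set -/
def SMB (d : ℕ) (B : ℝ → Prop) (σ ρ t g : ℝ) (ξ : Zd d → ℝ) : Prop :=
  ∀ E : ℝ, B E → ∀ u f : Zd d → ℝ,
    (Summable fun x => u x ^ 2) → (Summable fun x => f x ^ 2) →
    (∀ x, ∑ i, (u (x + Pi.single i 1) + u (x - Pi.single i 1)) + σ * ξ x * u x =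
      E * u x + f x) →
    ∀ a : Zd d, ‖a‖ ≤ ρ →
    u a ^ 2 ≤ g * (5 * t * ∑' x, u x ^ 2 + 2 * t⁻¹ * ∑' x, f x ^ 2)

/-- the value at the origin -/
theorem site2 (B : ℝ → Prop) (hSI : S_SITE) (hd : 1 ≤ d) (σ δ θ η g ℓ : ℝ) (M : ℕ) (hσ : 0 < σ) (hδ : 0 < δ)
    (hδ1 : δ ≤ 1 / 6) (hη : 0 < η) (hη1 : η ≤ 1) (hg1 : 1 ≤ g)
    (hM : (2 * d + 1) ≤ η * δ * M) (hℓ : 2 * d ≤ η * δ * ℓ) (hL : 4 * ℓ + 4 < L)
    (ω : Zd d → ℝ) (hω : (fun y : T d L => σ * ω (lf y)) ∈ Good2 (d := d) (L := L) B δ θ η g M)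
    (hf : ∀ (E : ℝ) (w : T d L → ℝ),
      |∑ x, ω (lf x) * w x ^ 2| ≤ 2 * (1 / (4 * σ)) * q (J E δ) w)
    (E : ℝ) (hEB : ∀ j : ℤ, |E - η * δ * j| ≤ η * δ → B (η * δ * j)) (u f : Zd d → ℝ)
    (hu : Summable fun x => u x ^ 2) (hfs : Summable fun x => f x ^ 2)
    (heq : ∀ x, ∑ i, (u (x + Pi.single i 1) + u (x - Pi.single i 1)) + σ * ω x * u x =
      E * u x + f x) :
    u 0 ^ 2 ≤ 192 * g * (5 * (η * δ) * ∑' x, u x ^ 2 + 2 * (η * δ)⁻¹ * ∑' x, f x ^ 2) := by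
  obtain ⟨t, ht⟩ : ∃ t, t = η * δ := ⟨_, rfl⟩
  have ht0 : 0 < t := by rw [ht]; positivity
  obtain ⟨v, r, h0, hvr, hv2, hr2⟩ := cutg (L := L) hd σ E t ℓ ht0 (by rw [ht]; exact hℓ) hL ω u f
    hu hfs heq
  have hSu : 0 ≤ ∑' x, u x ^ 2 := tsum_nonneg fun x => sq_nonneg _
  have hSf : 0 ≤ ∑' x, f x ^ 2 := tsum_nonneg fun x => sq_nonneg _
  have h1 := eig E δ (2 * (1 / (4 * σ))) σ hδ (by positivity) hσ.le (by
    have : σ * (2 * (1 / (4 * σ))) = 1 / 2 := by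
      field_simp
      norm_num
    linarith) (fun x => ω (lf x)) v r (hf E) hvr
  have h2 := good_bound2 B hSI hd δ θ η g M hδ hδ1 hη hη1 hg1 hM _ hω E hEB v r hvr h1
  rw [h0] at h2
  rw [← ht] at h2 ⊢
  have ht2 : t⁻¹ * t ^ 2 = t := by
    field_simp
  have hg0 : 0 < g := by linarith
  calc u 0 ^ 2 ≤ g * (432 * t * ∑ x, v x ^ 2 + 192 * t⁻¹ * ∑ x, r x ^ 2) := h2
    _ ≤ g * (432 * t * ∑' x, u x ^ 2 +
        192 * t⁻¹ * (2 * (t ^ 2 * ∑' x, u x ^ 2) + 2 * ∑' x, f x ^ 2)) := by gcongr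
    _ = g * (816 * t * ∑' x, u x ^ 2 + 384 * t⁻¹ * ∑' x, f x ^ 2) := by
        have e1 : 192 * t⁻¹ * (2 * (t ^ 2 * ∑' x, u x ^ 2) + 2 * ∑' x, f x ^ 2) =
            384 * (t⁻¹ * t ^ 2) * ∑' x, u x ^ 2 + 384 * t⁻¹ * ∑' x, f x ^ 2 := by ring
        rw [e1, ht2]
        ring
    _ ≤ 192 * g * (5 * t * ∑' x, u x ^ 2 + 2 * t⁻¹ * ∑' x, f x ^ 2) := by
        have e1 : 0 ≤ g * (t * ∑' x, u x ^ 2) := by positivity
        linarith

/-- **the lattice event** -/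
theorem mainB2 (B B' : ℝ → Prop) (hSI : S_SITE) (hd : 1 ≤ d) (μ : Measure ℝ) [IsProbabilityMeasure μ] (c : ℝ)
    (hμ : DomBy μ c) (σ ρ δ θ η g g1 ℓ : ℝ) (M : ℕ) (hσ : 0 < σ) (hρ : 1 ≤ ρ) (hδ : 0 < δ)
    (hδ1 : δ ≤ 1 / 6) (hη : 0 < η) (hη1 : η ≤ 1) (hg1 : 1 ≤ g) (hGB : GB d L δ g1)
    (hM : (2 * d + 1) ≤ η * δ * M) (hℓ : 2 * d ≤ η * δ * ℓ) (hL : 4 * ℓ + 4 < L)
    (hBB : ∀ E, B' E → ∀ j : ℤ, |E - η * δ * j| ≤ η * δ → B (η * δ * j))
    (hmeas : MeasurableSet (Good2 (d := d) (L := L) B δ θ η g M))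
    (p : ℕ) (hp : p ≠ 0) (ε1 ε : ℝ)
    (hgood : (PP (T d L) (μ.map fun s => σ * s)).real
      (Good2 (d := d) (L := L) B δ θ η g M)ᶜ ≤ ε1)
    (hε : (3 * ρ) ^ d * ((8 * d / δ) * ((32 * p * g1 * c ^ 2 * σ ^ 2 / δ) ^ p *
      (L : ℝ) ^ d) + ε1) ≤ ε) :
    ∃ G : Set (Zd d → ℝ), MeasurableSet G ∧
      1 - ε ≤ (Measure.infinitePi fun _ : Zd d => μ).real G ∧
      ∀ ξ ∈ G, SMB d B' σ ρ (η * δ) (192 * g) ξ := by
  obtain ⟨G1, hG1, hP1, hb⟩ := formE (d := d) (L := L) hd μ c hμ δ g1 hδ (by linarith) hGB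
    (1 / (4 * σ)) (by positivity) p hp
  have hsm : Measurable fun (V : T d L → ℝ) y => σ * V y := by fun_prop
  obtain ⟨G2, hG2⟩ : ∃ G2, G2 = (fun (V : T d L → ℝ) y => σ * V y) ⁻¹'
    Good2 (d := d) (L := L) B δ θ η g M := ⟨_, rfl⟩
  have hG2m : MeasurableSet G2 := by
    rw [hG2]
    exact hsm hmeas
  have hpm : IsProbabilityMeasure (μ.map fun s => σ * s) :=
    Measure.isProbabilityMeasure_map (by fun_prop)
  have hP2 : (Measure.pi fun _ : T d L => μ).real G2ᶜ ≤ ε1 := by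
    have e1 : PP (T d L) (μ.map fun s => σ * s) =
        (Measure.pi fun _ : T d L => μ).map (fun (V : T d L → ℝ) y => σ * V y) := by
      unfold PP
      rw [Measure.pi_map_pi (μ := fun _ : T d L => μ) (f := fun _ (s : ℝ) => σ * s)]
      intro i
      fun_prop
    rw [e1, map_measureReal_apply hsm hmeas.compl] at hgood
    rw [hG2]
    exact hgood
  have hG : MeasurableSet (G1 ∩ G2) := hG1.inter hG2m
  have hP : (3 * ρ) ^ d * (Measure.pi fun _ : T d L => μ).real (G1 ∩ G2)ᶜ ≤ ε := by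
    refine le_trans ?_ hε
    apply mul_le_mul_of_nonneg_left _ (by positivity)
    rw [Set.compl_inter]
    refine (measureReal_union_le _ _).trans (add_le_add ?_ hP2)
    refine hP1.trans ?_
    apply mul_le_mul_of_nonneg_left _ (by positivity)
    have e1 : 2 * p * g1 * δ⁻¹ * c ^ 2 / (1 / (4 * σ)) ^ 2 = 32 * p * g1 * c ^ 2 * σ ^ 2 / δ := by
      field_simp
      ring
    rw [e1]
    exact le_refl _
  set Bx : Finset (Zd d) := LO.bx (0 : Zd d) ⌊ρ⌋₊ with hB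
  set R : Zd d → (Zd d → ℝ) → (T d L → ℝ) := fun a ω y => ω (lf y + a) with hR
  have hRm : ∀ a, Measurable (R a) := fun a => measurable_pi_iff.2 fun y => measurable_pi_apply _
  have hPa : ∀ a, (Measure.infinitePi fun _ : Zd d => μ).real (R a ⁻¹' (G1 ∩ G2))ᶜ =
      (Measure.pi fun _ : T d L => μ).real (G1 ∩ G2)ᶜ := by
    intro a
    have h1 : (Measure.infinitePi fun _ : Zd d => μ).real (R a ⁻¹' (G1 ∩ G2)ᶜ) =
        (Measure.pi fun _ : T d L => μ).real (G1 ∩ G2)ᶜ := by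
      rw [← Pool.Agent.W788.Gen3.law_shift (d := d) (L := L) μ a, map_measureReal_apply (hRm a) hG.compl]
    exact h1
  have hm : MeasurableSet (⋂ a ∈ Bx, R a ⁻¹' (G1 ∩ G2)) :=
    Finset.measurableSet_biInter _ fun a _ => hRm a hG
  refine ⟨⋂ a ∈ Bx, R a ⁻¹' (G1 ∩ G2), hm, ?_, ?_⟩
  · have h2 := probReal_add_probReal_compl (μ := Measure.infinitePi fun _ : Zd d => μ) hm
    have h3 : (Measure.infinitePi fun _ : Zd d => μ).real (⋂ a ∈ Bx, R a ⁻¹' (G1 ∩ G2))ᶜ ≤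
        (3 * ρ) ^ d * (Measure.pi fun _ : T d L => μ).real (G1 ∩ G2)ᶜ := by
      have e1 : (⋂ a ∈ Bx, R a ⁻¹' (G1 ∩ G2))ᶜ = ⋃ a ∈ Bx, (R a ⁻¹' (G1 ∩ G2))ᶜ := by
        simp only [Set.compl_iInter]
      rw [e1]
      refine (measureReal_biUnion_finset_le _ _).trans
        ((Finset.sum_le_sum fun a _ => (hPa a).le).trans ?_)
      rw [Finset.sum_const, nsmul_eq_mul, hB, LO.Em.card_bx]
      apply mul_le_mul_of_nonneg_right _ measureReal_nonneg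
      push_cast
      apply pow_le_pow_left₀ (by positivity)
      have := Nat.floor_le (show 0 ≤ ρ by linarith)
      linarith
    linarith
  · intro ξ hξ E hEB u f hu hfs heq a ha
    have haB : a ∈ Bx := Pool.Agent.W788.Gen3.norm_zd a ρ ha
    have hV : R a ξ ∈ G1 ∩ G2 := Set.mem_iInter₂.1 hξ a haB
    have hV2 := hV.2
    rw [hG2] at hV2
    have c1 := site2 (L := L) B hSI hd σ δ θ η g ℓ M hσ hδ hδ1 hη hη1 hg1 hM hℓ hL
      (fun x => ξ (x + a)) hV2 (fun E w => hb _ hV.1 E w) E (hBB E hEB)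
      (fun x => u (x + a)) (fun x => f (x + a)) (sum_shiftR u a hu) (sum_shiftR f a hfs) (by
        intro x
        have h1 := heq (x + a)
        have h2 : ∀ i : Fin d, x + Pi.single i 1 + a = x + a + Pi.single i 1 := fun i => by abel
        have h3 : ∀ i : Fin d, x - Pi.single i 1 + a = x + a - Pi.single i 1 := fun i => by abel
        simp only [h2, h3]
        exact h1)
    simp only [zero_add] at c1
    rw [tsum_shiftR, tsum_shiftR] at c1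
    exact c1

end Pool.Agent.TH311.AN2
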