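import Pool.Agent.W788.BK.Net

/-! The energies of a set `B` on the torus. -/

set_option autoImplicit false
set_option linter.unusedSectionVars false

open scoped BigOperators Matrix
open MeasureTheory

namespace Pool.Agent.TH311.AN2

open Pool.Agent.W788.BK
open Pool.Agent.W788.MFP.Four (T e NN adj K ft Op q NN_pos e_zero)
open Pool.Agent.W788.MFP.Form (J)

variable {d L : ℕ} [NeZero L]

/-- the good event -/
def Good2 (B : ℝ → Prop) (δ θ η g : ℝ) (M : ℕ) : Set (T d L → ℝ) :=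
  {V | (∀ x, |UU θ V x| ≤ η * δ) ∧
    ∀ j ∈ Finset.Icc (-(M : ℤ)) M, B (η * δ * j) → FF (η * δ * j) δ θ η V ≤ 16 * g}

theorem good_meas2 (B : ℝ → Prop) (δ θ η g : ℝ) (M : ℕ) (hη : 0 < η)
    (hX : ∀ E, (D0 (d := d) (L := L) E δ).IsHermitian)
    (hA : ∀ E y, (AA (d := d) (L := L) E δ θ y).IsHermitian) :
    MeasurableSet (Good2 (d := d) (L := L) B δ θ η g M) := by
  have h1 : Good2 (d := d) (L := L) B δ θ η g M = (⋂ x, {V | |UU θ V x| ≤ η * δ}) ∩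
      ⋂ j ∈ Finset.Icc (-(M : ℤ)) M, {V | B (η * δ * j) → FF (η * δ * j) δ θ η V ≤ 16 * g} := by
    ext V
    simp [Good2]
  rw [h1]
  refine MeasurableSet.inter (MeasurableSet.iInter fun x => ?_)
    (Finset.measurableSet_biInter _ fun j _ => ?_)
  · exact (isClosed_le (continuous_UU θ x).abs continuous_const).measurableSet
  · by_cases hB : B (η * δ * j)
    · simp only [hB, true_implies]
      exact (isClosed_le (continuous_FF _ δ θ η hη (hX _) (hA _)) continuous_const).measurableSet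
    · simp only [hB, false_implies, Set.setOf_true]
      exact MeasurableSet.univ

/-- the probability of the good event -/
theorem good_prob2 (B : ℝ → Prop) (hTH : S_THIRD) (hFL : S_FLUCT) (hIN : S_INV) (hMB : S_MB) (hCO : S_CONC)
    (hSU : S_SUP) (δ θ η a v2 Q β s2 g D : ℝ) (M : ℕ) (hδ : 0 < δ) (hη : 0 < η) (hη1 : η ≤ 1)
    (hadm : ∀ E, B E → Adm (D0 E δ) (AA (d := d) (L := L) E δ θ) a v2 Q)
    (μ : Measure ℝ) [IsProbabilityMeasure μ] (hβ : 0 < β) (hμ : ∀ᵐ s ∂μ, |s| ≤ β)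
    (h0 : ∫ s, s ∂μ = 0) (h2 : ∫ s, s ^ 2 ∂μ = s2) (hs2 : 0 ≤ s2)
    (hβa : β * a ≤ η) (hβv : β ^ 2 * v2 ≤ 1)
    (hε : 4 * β ^ 3 * a * v2 / η ^ 3 + s2 * (2 * β * Q * Real.sqrt v2 / η ^ 4) ≤ 1 / 2)
    (hg : ∀ E' : ℝ, ∑ k : T d L, (JJ E' (η * δ) k)⁻¹ ≤ g * NN d L)
    (hlow : s2 * (∑ P : T d L, (1 - hi θ P)) ≤ η ^ 2 * δ ^ 2 / 4 * NN d L)
    (hD : 0 < D) (hD4 : D ≤ 1 / 4) (hDD : 2 * β ^ 2 / η ^ 2 * (Q + a ^ 2 / η ^ 2) ≤ D ^ 2) :
    (PP (T d L) μ).real (Good2 (d := d) (L := L) B δ θ η g M)ᶜ ≤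
      2 * NN d L * Real.exp (-((η * δ) ^ 2 * NN d L /
        (2 * β ^ 2 * ∑ P : T d L, (1 - hi θ P)))) +
      (2 * M + 1) * Real.exp (-(1 / (4 * D))) := by
  have hsub : (Good2 (d := d) (L := L) B δ θ η g M)ᶜ ⊆
      {V | ∃ x : T d L, η * δ < |∑ y : T d L, V y * K (fun Q => 1 - hi θ Q) (x - y)|} ∪
      ⋃ j ∈ Finset.Icc (-(M : ℤ)) M, {V | B (η * δ * j) ∧ 16 * g < FF (η * δ * j) δ θ η V} := by
    intro V hV
    simp only [Good2, Set.mem_compl_iff, Set.mem_ofPred_eq, not_and_or, not_forall, not_le] at hV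
    rcases hV with ⟨x, hx⟩ | ⟨j, hj, hB, hx⟩
    · exact Or.inl ⟨x, hx⟩
    · exact Or.inr (Set.mem_iUnion₂.2 ⟨j, hj, hB, hx⟩)
  refine (measureReal_mono hsub).trans ((measureReal_union_le _ _).trans (add_le_add ?_ ?_))
  · exact hSU d L μ β θ (η * δ) hβ hμ h0 (by positivity)
  · refine (measureReal_biUnion_finset_le _ _).trans ?_
    have h1 : ∀ j ∈ Finset.Icc (-(M : ℤ)) M,
        (PP (T d L) μ).real {V | B (η * δ * j) ∧ 16 * g < FF (η * δ * j) δ θ η V} ≤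
          Real.exp (-(1 / (4 * D))) := by
      intro j _
      by_cases hB : B (η * δ * j)
      swap
      · have e0 : {V : T d L → ℝ | B (η * δ * j) ∧ 16 * g < FF (η * δ * j) δ θ η V} = ∅ := by
          ext V
          simp [hB]
        rw [e0, measureReal_empty]
        positivity
      have e1 := mean_le hTH hFL hIN hMB (η * δ * j) δ θ η a v2 Q β s2 g hδ hη hη1 (hadm _ hB) μ hβ
        hμ h0 h2 hs2 hβa hβv hε hg hlow
      refine le_trans (measureReal_mono ?_) (hCO (T d L) (T d L) _ _ _ _ _ (hadm (η * δ * j) hB) μ β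
        η D hβ hμ hη hη1 hβv hD hD4 hDD (w0 (η * δ * j) δ))
      intro V hV
      simp only [Set.mem_ofPred_eq] at hV ⊢
      have hV' := hV.2
      unfold FF at hV'
      linarith
    refine (Finset.sum_le_sum h1).trans ?_
    rw [Finset.sum_const, nsmul_eq_mul, Int.card_Icc]
    have e1 : ((M : ℤ) + 1 - -(M : ℤ)).toNat = 2 * M + 1 := by omega
    rw [e1]
    push_cast
    exact le_refl _

/-- **the bound on the good event** -/
theorem good_bound2 (B : ℝ → Prop) (hSI : S_SITE) (hd : 1 ≤ d) (δ θ η g : ℝ) (M : ℕ) (hδ : 0 < δ)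
    (hδ1 : δ ≤ 1 / 6) (hη : 0 < η) (hη1 : η ≤ 1) (hg1 : 1 ≤ g)
    (hM : (2 * d + 1) ≤ η * δ * M) (V : T d L → ℝ)
    (hV : V ∈ Good2 (d := d) (L := L) B δ θ η g M) (E : ℝ)
    (hEB : ∀ j : ℤ, |E - η * δ * j| ≤ η * δ → B (η * δ * j)) (v r : T d L → ℝ)
    (heq : ∀ x, Op (fun k => adj k - E) v x = -(V x * v x) + r x)
    (hq : q (J E δ) v ≤ 3 * δ * ∑ x, v x ^ 2 + δ⁻¹ * ∑ x, r x ^ 2) :
    v 0 ^ 2 ≤ g * (432 * (η * δ) * ∑ x, v x ^ 2 + 192 * (η * δ)⁻¹ * ∑ x, r x ^ 2) := by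
  obtain ⟨t, ht⟩ : ∃ t, t = η * δ := ⟨_, rfl⟩
  have ht0 : 0 < t := by rw [ht]; positivity
  obtain ⟨Sv, hSv⟩ : ∃ S, S = ∑ x, v x ^ 2 := ⟨_, rfl⟩
  obtain ⟨Sr, hSr⟩ : ∃ S, S = ∑ x, r x ^ 2 := ⟨_, rfl⟩
  have hSv0 : 0 ≤ Sv := by rw [hSv]; exact Finset.sum_nonneg fun _ _ => sq_nonneg _
  have hSr0 : 0 ≤ Sr := by rw [hSr]; exact Finset.sum_nonneg fun _ _ => sq_nonneg _
  rw [← hSv, ← hSr] at hq ⊢
  rw [← ht]
  have htd : t ≤ δ := by
    rw [ht]
    exact mul_le_of_le_one_left hδ.le hη1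
  have hinv : δ⁻¹ ≤ t⁻¹ := inv_anti₀ ht0 htd
  rcases le_or_gt |E| (2 * d + 1) with hE | hE
  · -- a net point
    obtain ⟨j, hj⟩ : ∃ j : ℤ, j = ⌊E / t⌋ := ⟨_, rfl⟩
    have h3 := Int.floor_le (E / t)
    have h4 := Int.lt_floor_add_one (E / t)
    rw [← hj] at h3 h4
    have h5 : t * (j : ℝ) ≤ E := by
      calc t * (j : ℝ) ≤ t * (E / t) := by gcongr
        _ = E := by field_simp
    have h6 : E ≤ t * (j : ℝ) + t := by
      calc E = t * (E / t) := by field_simp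
        _ ≤ t * ((j : ℝ) + 1) := by gcongr
        _ = _ := by ring
    have hEj : |E - t * j| ≤ t := by
      rw [abs_le]
      constructor <;> linarith
    have hM' : (2 * (d : ℝ) + 1) ≤ t * M := by rw [ht]; exact hM
    have hjI : j ∈ Finset.Icc (-(M : ℤ)) M := by
      have e1 := abs_le.1 hE
      rw [Finset.mem_Icc]
      constructor
      · rw [hj, Int.le_floor, le_div_iff₀ ht0]
        push_cast
        linarith [e1.1]
      · have e2 : t * (j : ℝ) ≤ t * M := by linarith [e1.2]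
        have e3 : (j : ℝ) ≤ M := le_of_mul_le_mul_left e2 ht0
        exact_mod_cast e3
    have hF := hV.2 j hjI (hEB j (by rw [← ht]; exact hEj))
    rw [← ht] at hF
    have heq' : ∀ x, Op (fun k => adj k - t * j) v x =
        -(V x * v x) + (r x + (E - t * j) * v x) := by
      intro x
      have e1 := heq x
      rw [Pool.Agent.W788.MFP.Four.Op_adj] at e1 ⊢
      linarith
    have hs := hSI d L (t * j) δ θ η t hδ hη ht0.le V v (fun x => r x + (E - t * j) * v x) heq'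
      (by
        have := hV.1
        rw [← ht] at this
        exact this)
    have hr2 : ∑ x, (r x + (E - t * j) * v x) ^ 2 ≤ 2 * Sr + 2 * t ^ 2 * Sv := by
      have e1 : ∀ x, (r x + (E - t * j) * v x) ^ 2 ≤ 2 * r x ^ 2 + 2 * t ^ 2 * v x ^ 2 := by
        intro x
        have e2 : (E - t * j) ^ 2 ≤ t ^ 2 := by
          rw [← sq_abs (E - t * j)]
          exact pow_le_pow_left₀ (abs_nonneg _) hEj 2
        have e3 : (E - t * j) ^ 2 * v x ^ 2 ≤ t ^ 2 * v x ^ 2 :=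
          mul_le_mul_of_nonneg_right e2 (sq_nonneg _)
        nlinarith [sq_nonneg (r x - (E - t * j) * v x)]
      refine (Finset.sum_le_sum fun x _ => e1 x).trans ?_
      rw [Finset.sum_add_distrib, ← Finset.mul_sum, ← Finset.mul_sum, hSr, hSv]
    have hq2 : q (JJ (t * j) δ) v ≤ 2 * (3 * δ * Sv + δ⁻¹ * Sr) := by
      have e1 : q (JJ (t * j) δ) v ≤ 2 * q (J E δ) v := by
        rw [← Pool.Agent.W788.MFP.Four.q_const]
        refine Pool.Agent.W788.MFP.Four.q_mono _ _ _ fun k => ?_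
        exact Pool.Agent.W788.MFP.Form.J_le E (t * j) δ hδ (hEj.trans htd) k
      linarith
    rw [← hSv] at hs
    have hF' : FF (t * j) δ θ η V ≤ 16 * g := hF
    unfold FF at hF'
    obtain ⟨F, hFdef⟩ : ∃ F, F = (star (w0 (d := d) (L := L) (t * j) δ) ⬝ᵥ
      (RR (D0 (t * j) δ) (AA (t * j) δ θ) η V *ᵥ w0 (t * j) δ)).im := ⟨_, rfl⟩
    rw [← hFdef] at hs hF'
    have hδη : δ⁻¹ * t ^ 2 = η * t := by
      rw [ht]
      field_simp
    have hA0 : 0 ≤ δ⁻¹ * (2 * Sr + 2 * t ^ 2 * Sv) + δ⁻¹ * t ^ 2 * Sv +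
        η ^ 2 * (2 * (3 * δ * Sv + δ⁻¹ * Sr)) := by positivity
    have hA : δ⁻¹ * ∑ x, (r x + (E - t * j) * v x) ^ 2 + δ⁻¹ * t ^ 2 * Sv +
        η ^ 2 * q (JJ (t * j) δ) v ≤ δ⁻¹ * (2 * Sr + 2 * t ^ 2 * Sv) + δ⁻¹ * t ^ 2 * Sv +
        η ^ 2 * (2 * (3 * δ * Sv + δ⁻¹ * Sr)) := by gcongr
    have hq0 : 0 ≤ q (JJ (t * j) δ) v :=
      Pool.Agent.W788.MFP.Four.q_nonneg _ _ fun k => (JJ_pos _ δ hδ k).le
    have hA1 : 0 ≤ δ⁻¹ * ∑ x, (r x + (E - t * j) * v x) ^ 2 + δ⁻¹ * t ^ 2 * Sv +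
        η ^ 2 * q (JJ (t * j) δ) v := by positivity
    calc v 0 ^ 2 ≤ 3 * F / η * (δ⁻¹ * ∑ x, (r x + (E - t * j) * v x) ^ 2 + δ⁻¹ * t ^ 2 * Sv +
          η ^ 2 * q (JJ (t * j) δ) v) := hs
      _ ≤ 3 * (16 * g) / η * (δ⁻¹ * ∑ x, (r x + (E - t * j) * v x) ^ 2 + δ⁻¹ * t ^ 2 * Sv +
          η ^ 2 * q (JJ (t * j) δ) v) := by gcongr
      _ ≤ 3 * (16 * g) / η * (δ⁻¹ * (2 * Sr + 2 * t ^ 2 * Sv) + δ⁻¹ * t ^ 2 * Sv +
          η ^ 2 * (2 * (3 * δ * Sv + δ⁻¹ * Sr))) := by gcongr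
      _ = g * (48 * (9 * t) * Sv + 48 * (2 * t⁻¹ + 2 * η ^ 2 * t⁻¹) * Sr) := by
          have e1 : δ = t / η := by
            rw [ht]
            field_simp
          rw [e1]
          field_simp
          ring
      _ ≤ g * (432 * t * Sv + 192 * t⁻¹ * Sr) := by
          have e1 : η ^ 2 ≤ 1 := pow_le_one₀ hη.le hη1
          have e2 : 48 * (2 * t⁻¹ + 2 * η ^ 2 * t⁻¹) ≤ 192 * t⁻¹ := by
            have : η ^ 2 * t⁻¹ ≤ 1 * t⁻¹ := by gcongr
            linarith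
          have e3 : 48 * (2 * t⁻¹ + 2 * η ^ 2 * t⁻¹) * Sr ≤ 192 * t⁻¹ * Sr :=
            mul_le_mul_of_nonneg_right e2 hSr0
          have e4 : 48 * (9 * t) * Sv = 432 * t * Sv := by ring
          apply mul_le_mul_of_nonneg_left _ (by linarith)
          linarith
  · -- large energies
    have h1 : Sv ≤ q (J E δ) v := by
      rw [hSv, Pool.Agent.W788.MFP.Four.sum_sq]
      refine Pool.Agent.W788.MFP.Four.q_mono _ _ _ fun k => ?_
      refine le_trans ?_ (Pool.Agent.W788.MFP.Form.J_ge' E δ k)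
      have e1 := Pool.Agent.W788.MFP.Form.adj_abs k
      have e2 : |E| ≤ |adj k - E| + |adj k| := by
        have := abs_sub_abs_le_abs_sub E (adj k)
        rw [abs_sub_comm] at this
        linarith
      linarith
    have h2 : Sv ≤ 2 * (δ⁻¹ * Sr) := by
      have e1 : 3 * δ * Sv ≤ 1 / 2 * Sv := by
        apply mul_le_mul_of_nonneg_right _ hSv0
        linarith
      linarith
    have h3 : v 0 ^ 2 ≤ Sv := by
      rw [hSv]
      exact Finset.single_le_sum (f := fun x => v x ^ 2) (fun x _ => sq_nonneg _)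
        (Finset.mem_univ 0)
    have h4 : δ⁻¹ * Sr ≤ t⁻¹ * Sr := mul_le_mul_of_nonneg_right hinv hSr0
    have h5 : 0 ≤ t⁻¹ * Sr := by positivity
    have h6 : 0 ≤ t * Sv := by positivity
    calc v 0 ^ 2 ≤ 1 * (432 * t * Sv + 192 * t⁻¹ * Sr) := by linarith
      _ ≤ g * (432 * t * Sv + 192 * t⁻¹ * Sr) := by gcongr

end Pool.Agent.TH311.AN2
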